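import Pool.Agent.Work.MP_820435_lc.All.ModFin

/-!
# Generic sets in the extension
-/

universe u

set_option linter.unusedSectionVars false

namespace Pool.Agent.W820.AllM

open Pool.Agent.SigB Pool.Agent.Forc Pool.Agent.Frc Pool.Agent.FTwo

section model

variable {M : Type u} [Membership M M] [IsZFC M]

/-- The set of the rows of the points of a condition. -/
noncomputable def rw' (p : M) : M := im p fun z => fst (fst z)

theorem rw'.dt : DT (fun w : Fin 1 → M => rw' (w 0)) := by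
  unfold rw'; simp (maxDischargeDepth := 50)

@[simp] theorem dt_rw' {n : ℕ} {s : (Fin n → M) → M} (hs : DT s) : DT (fun v => rw' (s v)) :=
  dt1 rw'.dt hs

theorem mem_rw' {p r x v : M} (h : op (op r x) v ∈ p) : r ∈ rw' p := by
  unfold rw'
  rw [mem_im (by simp (maxDischargeDepth := 50))]
  exact ⟨_, h, by rw [fst_op, fst_op]⟩

/-- Some row is free of the points of `|b|` countable sets of conditions, `|b| ≤ κ`. -/
theorem exists_row {b κ k E : M} (hκ : SigB.Ord κ) (hom : Sb SigB.om κ) (hb : Le b κ)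
    (hE : ∀ u, u ∈ b → Le (ap E u) (SigB.om : M) ∧ Sb (ap E u) (cnd k)) :
    ∃ r, r ∈ pw κ ∧ ∀ u, u ∈ b → ∀ p, p ∈ ap E u → ∀ x v, op (op r x) v ∉ p := by
  have hd1 : DT (fun w : Fin 1 → M => rw' (w 0)) := rw'.dt
  have hd2 : DT (fun w : Fin 1 → M => sU (im (ap E (w 0)) rw')) := by
    simp (maxDischargeDepth := 50)
  have hU : Le (sU (im b fun u => sU (im (ap E u) rw'))) κ := by
    refine Le.union hκ hom (Le.image hκ hb hd2 fun y hy => (mem_im hd2).1 hy) fun y hy => ?_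
    obtain ⟨u, hu, rfl⟩ := (mem_im hd2).1 hy
    obtain ⟨h1, h2⟩ := hE u hu
    refine Le.union hκ hom (Le.image hκ (h1.mono_right hom) hd1 fun y hy => (mem_im hd1).1 hy)
      fun y hy => ?_
    obtain ⟨p, hp, rfl⟩ := (mem_im hd1).1 hy
    obtain ⟨-, -, n, hn, hle⟩ := mem_cnd.1 (h2 p hp)
    have h3 : Le p κ := (hle.mono_right (om_ord.sb hn)).mono_right hom
    have hd3 : DT (fun w : Fin 1 → M => fst (fst (w 0))) := by simp (maxDischargeDepth := 50)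
    exact Le.image hκ h3 hd3 fun y hy => (mem_im hd3).1 hy
  by_contra hno
  push Not at hno
  refine cantor κ (hU.mono_left fun r hr => ?_)
  obtain ⟨u, hu, p, hp, x, v, h⟩ := hno r hr
  exact mem_sU.2 ⟨_, (mem_im hd2).2 ⟨u, hu, rfl⟩, mem_sU.2 ⟨_, (mem_im hd1).2 ⟨p, hp, rfl⟩,
    mem_rw' h⟩⟩

/-- The condition moved to the row `r`. -/
noncomputable def mv (r p : M) : M := im p fun z => op (op r (fst z)) (snd z)

theorem mv.dt : DT (fun w : Fin 2 → M => mv (w 0) (w 1)) := by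
  unfold mv; simp (maxDischargeDepth := 50)

@[simp] theorem dt_mv {n : ℕ} {s t : (Fin n → M) → M} (hs : DT s) (ht : DT t) :
    DT (fun v => mv (s v) (t v)) := dt2 mv.dt hs ht

theorem mem_mv {r p z a : M} (hp : p ∈ cnd a) :
    z ∈ mv r p ↔ ∃ x v, op x v ∈ p ∧ z = op (op r x) v := by
  unfold mv
  rw [mem_im (by simp (maxDischargeDepth := 50))]
  constructor
  · rintro ⟨y, hy, rfl⟩
    obtain ⟨x, -, v, -, rfl⟩ := mem_pd.1 ((mem_cnd.1 hp).1 y hy)
    exact ⟨x, v, hy, by rw [fst_op, snd_op]⟩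
  · rintro ⟨x, v, h, rfl⟩
    exact ⟨_, h, by rw [fst_op, snd_op]⟩

theorem mv_mem_cnd {r p a W : M} (hr : r ∈ W) (hp : p ∈ cnd a) : mv r p ∈ cnd (pd W a) := by
  obtain ⟨h1, h2, n, hn, h3⟩ := mem_cnd.1 hp
  refine mem_cnd.2 ⟨fun z hz => ?_, fun x y z hy hz => ?_, n, hn, ?_⟩
  · obtain ⟨x, v, h, rfl⟩ := (mem_mv hp).1 hz
    obtain ⟨hx, hv⟩ := op_mem_pd.1 (h1 _ h)
    exact op_mem_pd.2 ⟨op_mem_pd.2 ⟨hr, hx⟩, hv⟩
  · obtain ⟨x₁, v₁, h4, h5⟩ := (mem_mv hp).1 hy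
    obtain ⟨x₂, v₂, h6, h7⟩ := (mem_mv hp).1 hz
    obtain ⟨rfl, rfl⟩ := op_inj.1 h5
    obtain ⟨h8, rfl⟩ := op_inj.1 h7
    obtain ⟨-, rfl⟩ := op_inj.1 h8
    exact h2 _ _ _ h4 h6
  · have hd : DT (fun w : Fin 1 → M => op (op r (fst (w 0))) (snd (w 0))) := by
      simp (maxDischargeDepth := 50)
    exact Le.image (ord_of_mem_om hn) h3 hd fun y hy => (mem_im hd).1 hy

/-- The part of a condition in the row `r`. -/
noncomputable def res (r p a : M) : M := sp (pd a two) fun z => ∃ x v, z = op x v ∧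
  op (op r x) v ∈ p

theorem res.dt : DT (fun w : Fin 3 → M => res (w 0) (w 1) (w 2)) := by
  unfold res; simp (maxDischargeDepth := 50)

@[simp] theorem dt_res {n : ℕ} {s t r : (Fin n → M) → M} (hs : DT s) (ht : DT t) (hr : DT r) :
    DT (fun v => res (s v) (t v) (r v)) := dt3 res.dt hs ht hr

theorem op_mem_res {r p a x v : M} : op x v ∈ res r p a ↔ (x ∈ a ∧ v ∈ (two : M)) ∧
    op (op r x) v ∈ p := by
  unfold res
  rw [mem_sp (by simp (maxDischargeDepth := 50)), op_mem_pd]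
  refine and_congr_right fun _ => ⟨?_, fun h => ⟨x, v, rfl, h⟩⟩
  rintro ⟨x', v', he, h⟩
  obtain ⟨rfl, rfl⟩ := op_inj.1 he
  exact h

theorem res_mem_cnd {r p a W : M} (hp : p ∈ cnd (pd W a)) : res r p a ∈ cnd a := by
  obtain ⟨h1, h2, n, hn, h3⟩ := mem_cnd.1 hp
  have hsb : Sb (res r p a) (pd a two) := fun z hz => by
    unfold res at hz
    exact ((mem_sp (by simp (maxDischargeDepth := 50))).1 hz).1
  refine mem_cnd.2 ⟨hsb, fun x y z hy hz => h2 _ _ _ (op_mem_res.1 hy).2 (op_mem_res.1 hz).2,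
    n, hn, ?_⟩
  refine Le.trans ?_ h3
  refine Le.mk (F := fun z => op (op r (fst z)) (snd z)) (by simp (maxDischargeDepth := 50))
    (fun z hz => ?_) fun z z' hz hz' he => ?_
  · obtain ⟨x, -, v, -, rfl⟩ := mem_pd.1 (hsb z hz)
    rw [fst_op, snd_op]
    exact (op_mem_res.1 hz).2
  · obtain ⟨x, -, v, -, rfl⟩ := mem_pd.1 (hsb z hz)
    obtain ⟨x', -, v', -, rfl⟩ := mem_pd.1 (hsb z' hz')
    simp only [fst_op, snd_op] at he
    obtain ⟨h4, rfl⟩ := op_inj.1 he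
    obtain ⟨-, rfl⟩ := op_inj.1 h4
    rfl

end model

variable {M : Type u} [Membership M M] [IsZFC M] {k : M} {G : M → Prop} {N : Type u}
  [Membership N N] {val : M → N} [IsZFC N]

/-- The copy of `a` is a generic set in the extension. -/
theorem isGenericSet_cv {a κ : M} (hκ : SigB.Ord κ) (hom : Sb SigB.om κ)
    (hb : Le (pd a (cnd a)) κ)
    (hE : Ext (cnd (pd (pw κ) a)) (cle (pd (pw κ) a)) SigB.em G val) :
    IsGenericSet (val (ck SigB.em a)) := by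
  set k : M := pd (pw κ) a with hk
  have hP := cPO k
  rw [isGenericSet_iff]
  intro D hD
  obtain ⟨F, hF, hFP, hFm, hFd, hFt⟩ := hE.forcing2 (R := fun x y => op x y ∈ D)
    (by simp (maxDischargeDepth := 50))
  have hF' : ∀ {n : ℕ} {s t r : (Fin n → M) → M}, DT s → DT t → DT r →
      Dfn fun v => F (s v) (t v) (r v) := fun hs ht hr => dfn3 hF hs ht hr
  -- a condition which forces that the sets are dense
  let U : M → Prop := fun q => ∀ r, op r q ∈ cle k → ∀ i, i ∈ a → ∀ c, c ∈ cnd a →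
    ∃ s, op s r ∈ cle k ∧ ∃ p, p ∈ cnd a ∧ Sb c p ∧ F s (ck SigB.em i) (ck SigB.em p)
  have hU : Dfn (fun w : Fin 1 → M => U (w 0)) := by
    simp (maxDischargeDepth := 50) [U, hF']
  have hU' : ∀ {n : ℕ} {s : (Fin n → M) → M}, DT s → Dfn fun v => U (s v) :=
    fun hs => dfn1 hU hs
  obtain ⟨s₀, hs₀, hUs₀⟩ : ∃ p, G p ∧ U p := by
    obtain ⟨s, hs, h1⟩ := hE.gen.below hP (p := SigB.em)
      (Q := fun q => U q ∨ ∃ i c, i ∈ a ∧ c ∈ cnd a ∧ ∀ s, op s q ∈ cle k → ∀ p, p ∈ cnd a →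
        Sb c p → ¬ F s (ck SigB.em i) (ck SigB.em p))
      (by simp (maxDischargeDepth := 50) [hU', hF']) hE.gen.one (by
        intro q hq
        by_cases h : U q
        · exact ⟨q, hP.refl _ (op_mem_cle.1 hq).1.1, Or.inl h⟩
        · simp only [U] at h
          push Not at h
          obtain ⟨r, hr, i, hi, c, hc, h⟩ := h
          exact ⟨r, hr, Or.inr ⟨i, c, hi, hc, h⟩⟩)
    rcases h1 with h1 | ⟨i, c, hi, hc, h1⟩
    · exact ⟨s, hs, h1⟩
    · exfalso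
      obtain ⟨p, hp, hcp, hip⟩ := hD _ _ (hE.cv_mem.2 hi) ((cnd_cv hE).2 ⟨c, hc, rfl⟩)
      obtain ⟨p, hp₀, rfl⟩ := (cnd_cv hE).1 hp
      obtain ⟨t, ht, hFt'⟩ := (hFt _ _).1 hip
      obtain ⟨r, -, hrs, hrt⟩ := hE.gen.dir s t hs ht
      exact h1 r hrs p hp₀ (hE.cv_sb.1 hcp) (hFm _ _ _ _ hFt' hrt)
  -- countable predense sets
  let C : M → M := fun u => sp (cnd k) fun q => F q (ck SigB.em (fst u)) (ck SigB.em (snd u))
  have hC : DT (fun w : Fin 1 → M => C (w 0)) := by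
    simp (maxDischargeDepth := 50) [C, hF']
  have hC' : ∀ {n : ℕ} {s : (Fin n → M) → M}, DT s → DT fun v => C (s v) := fun hs => dt1 hC hs
  have hCm : ∀ u q, q ∈ C u ↔ q ∈ cnd k ∧ F q (ck SigB.em (fst u)) (ck SigB.em (snd u)) :=
    fun u q => mem_sp (by simp (maxDischargeDepth := 50) [hF'])
  obtain ⟨E, hE1, hEs⟩ := choice' (a := pd a (cnd a)) (b := pw (cnd k))
    (P := fun u E => Sb E (C u) ∧ Le E (SigB.om : M) ∧ ∀ q, q ∈ C u → ∃ p, p ∈ E ∧ ¬ Inc p q)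
    (by simp (maxDischargeDepth := 50) [hC']) (by
      intro u hu
      have h1 : Sb (C u) (cnd k) := fun p hp => ((hCm u p).1 hp).1
      obtain ⟨E, h2, h3, h4⟩ := exists_pred h1
      exact ⟨E, mem_pw.2 (h2.trans h1), h2, h3, h4⟩)
  obtain ⟨r, hr, hfree⟩ := exists_row (k := k) hκ hom hb fun u hu =>
    ⟨(hEs u hu).2.1, fun p hp => ((hCm u p).1 ((hEs u hu).1 p hp)).1⟩
  -- the generic function
  let γ : N := sU (val (gname (cnd k) SigB.em))
  obtain ⟨g, hg, hgs⟩ := choice' (a := val (ck SigB.em a)) (b := (two : N))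
    (P := fun x v => (op (op (val (ck SigB.em r)) x) Forc.one ∈ γ → v = Forc.one) ∧
      (op (op (val (ck SigB.em r)) x) Forc.one ∉ γ → v = SigB.em))
    (by simp (maxDischargeDepth := 50)) (by
      intro x hx
      by_cases h : op (op (val (ck SigB.em r)) x) Forc.one ∈ γ
      · exact ⟨Forc.one, one_mem_two, fun _ => rfl, fun h' => absurd h h'⟩
      · exact ⟨SigB.em, em_mem_two, fun h' => absurd h' h, fun _ => rfl⟩)
  obtain ⟨hg1, hg2⟩ := mem_fs.1 hg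
  refine ⟨g, hg, fun i hi => ?_⟩
  obtain ⟨i, hi₀, rfl⟩ := hE.mem_cv.1 hi
  obtain ⟨s, hs, p, hp, hFs, hsub⟩ := hE.gen.below hP (p := s₀)
    (Q := fun s => ∃ p, p ∈ cnd a ∧ F s (ck SigB.em i) (ck SigB.em p) ∧ Sb (mv r p) s)
    (by simp (maxDischargeDepth := 50) [hF']) hs₀ (by
      intro q hq
      have hqc := (op_mem_cle.1 hq).1.1
      obtain ⟨s₁, hs₁, p, hp, hcp, hFp⟩ := hUs₀ q hq i hi₀ (res r q a) (res_mem_cnd hqc)
      have hs₁c := (op_mem_cle.1 hs₁).1.1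
      have hu : op i p ∈ pd a (cnd a) := op_mem_pd.2 ⟨hi₀, hp⟩
      obtain ⟨h1, -, h3⟩ := hEs _ hu
      obtain ⟨t, ht, hts⟩ := h3 s₁ ((hCm _ _).2 ⟨hs₁c, by rw [fst_op, snd_op]; exact hFp⟩)
      obtain ⟨htc, hFt''⟩ := (hCm _ _).1 (h1 t ht)
      rw [fst_op, snd_op] at hFt''
      have h4 := un_mem_cnd htc hs₁c hts
      have h5 : ¬ Inc t q := not_inc_of_sb h4 (sb_un_left _ _)
        ((op_mem_cle.1 hs₁).2.trans (sb_un_right _ _))
      have h6 := un_mem_cnd htc hqc h5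
      have h7 := mv_mem_cnd hr hp
      have h8 : ¬ Inc (un t q) (mv r p) := by
        rintro ⟨x, y, z, hy, hz, hyz⟩
        obtain ⟨x', v, hxv, he⟩ := (mem_mv hp).1 hz
        obtain ⟨rfl, rfl⟩ := op_inj.1 he
        rcases mem_un.1 hy with h | h
        · exact hfree _ hu t ht _ _ h
        · have h9 := op_mem_pd.1 ((mem_cnd.1 hp).1 _ hxv)
          have h10 := op_mem_pd.1 ((mem_cnd.1 hqc).1 _ h)
          have h11 := hcp _ (op_mem_res.2 ⟨⟨h9.1, h10.2⟩, h⟩)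
          exact hyz ((mem_cnd.1 hp).2.1 _ _ _ h11 hxv)
      have h9 := un_mem_cnd h6 h7 h8
      refine ⟨un (un t q) (mv r p), op_mem_cle.2 ⟨⟨h9, hqc⟩,
        (sb_un_right _ _).trans (sb_un_left _ _)⟩, p, hp, ?_, sb_un_right _ _⟩
      exact hFm _ _ _ _ hFt'' (op_mem_cle.2 ⟨⟨h9, htc⟩, (sb_un_left _ _).trans (sb_un_left _ _)⟩))
  refine ⟨val (ck SigB.em p), (cnd_cv hE).2 ⟨p, hp, rfl⟩, fun z hz => ?_,
    (hFt _ _).2 ⟨s, hs, hFs⟩⟩
  obtain ⟨z, hz₀, rfl⟩ := hE.mem_cv.1 hz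
  obtain ⟨x, hx, v, hv, rfl⟩ := mem_pd.1 ((mem_cnd.1 hp).1 z hz₀)
  have hx' : val (ck SigB.em x) ∈ val (ck SigB.em a) := hE.cv_mem.2 hx
  have hsm : op (op r x) v ∈ s := hsub _ ((mem_mv hp).2 ⟨x, v, hz₀, rfl⟩)
  rw [hE.cv_op, hg1.op_mem_iff hx']
  obtain ⟨h1, h2⟩ := hgs _ hx'
  rcases mem_two.1 hv with rfl | rfl
  · rw [hE.cv_em]
    refine h2 fun hcon => ?_
    obtain ⟨q, c, d, hq, hcd, h5, h6⟩ := (mem_gen hE).1 hcon
    rw [← hE.cv_op, hE.cv_inj] at h5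
    rw [← cv_one hE, hE.cv_inj] at h6
    subst h5
    subst h6
    obtain ⟨t, ht, hts, htq⟩ := hE.gen.dir s q hs hq
    have h7 := (mem_cnd.1 (hE.gen.mem t ht)).2.1 _ _ _ ((op_mem_cle.1 hts).2 _ hsm)
      ((op_mem_cle.1 htq).2 _ hcd)
    have h8 : (SigB.em : M) ∈ (Forc.one : M) := mem_sc_self _
    rw [← h7] at h8
    exact not_mem_em _ h8
  · rw [cv_one hE]
    refine h1 ((mem_gen hE).2 ⟨s, _, _, hs, hsm, ?_, ?_⟩)
    · rw [hE.cv_op]
    · rw [cv_one hE]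

end Pool.Agent.W820.AllM
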