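import Pool.Agent.Work.MP_820435_lc.All.ModTF
import Pool.Agent.Work.MP_820435_lc.All.ModGen
import Pool.Agent.Forc.Loew

/-!
# A model of ZFC with a tail-free generic set
-/

universe u

set_option linter.unusedSectionVars false

namespace Pool.Agent.W820.AllM

open Pool.Agent.SigB Pool.Agent.Forc Pool.Agent.Frc Pool.Agent.FTwo

section

variable {M M₀ : Type u} [Membership M M] [Membership M₀ M₀] {j : M₀ → M} {n : ℕ}

@[simp] theorem pd_isFinite (a : Fin n) : PD j (fun v : Fin n → M₀ => IsFinite (v a))
    (fun v : Fin n → M => IsFinite (v a)) := by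
  unfold IsFinite; simp (maxDischargeDepth := 50)

@[simp] theorem pd_isCountable (a : Fin n) : PD j (fun v : Fin n → M₀ => IsCountable (v a))
    (fun v : Fin n → M => IsCountable (v a)) := by
  unfold IsCountable; simp (maxDischargeDepth := 50)

@[simp] theorem pd_isFinSub (a b : Fin n) : PD j (fun v : Fin n → M₀ => IsFinSub (v a) (v b))
    (fun v : Fin n → M => IsFinSub (v a) (v b)) := by
  unfold IsFinSub; simp (maxDischargeDepth := 50)

@[simp] theorem pd_isPiece (a b c d : Fin n) :
    PD j (fun v : Fin n → M₀ => IsPiece (v a) (v b) (v c) (v d))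
    (fun v : Fin n → M => IsPiece (v a) (v b) (v c) (v d)) := by
  unfold IsPiece; simp (maxDischargeDepth := 50)

@[simp] theorem pd_isTailFree (a : Fin n) : PD j (fun v : Fin n → M₀ => IsTailFree (v a))
    (fun v : Fin n → M => IsTailFree (v a)) := by
  unfold IsTailFree; simp (maxDischargeDepth := 50)

end

/-- Countable models with a tail-free set. -/
theorem loewTF (M : Type u) [Membership M M] [IsZFC M] (hS : ∃ a : M, IsTailFree a) :
    ∃ (M₀ : Type u) (_ : Membership M₀ M₀) (_ : IsZFC M₀), Countable M₀ ∧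
      ∃ a : M₀, IsTailFree a := by
  have hne : Nonempty M := ⟨(exists_em (M := M)).choose⟩
  obtain ⟨S, hc, -, hS'⟩ := exists_full (M := M)
  let inst : Membership S S := subMem S
  have h1 := transferZ (M := M) (M₀ := S) (j := Subtype.val) (fun {p₀ p} h => hS'.closed h)
  have key : ∀ {M₀ : Type u} [Membership M₀ M₀] {j : M₀ → M},
      (∀ {p₀ p : Prop}, PD j (fun _ : Fin 0 → M₀ => p₀) (fun _ : Fin 0 → M => p) →
        (p₀ ↔ p)) → ∃ a : M₀, IsTailFree a := by
    intro M₀ _ j h
    exact (h (p := ∃ a : M, IsTailFree a) (by simp (maxDischargeDepth := 50))).2 hS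
  exact ⟨S, subMem S, h1, hc.to_subtype,
    key (M₀ := S) (j := Subtype.val) (fun {p₀ p} h => hS'.closed h)⟩

/-- Every set `a` of a countable model becomes a generic set in the extension by many Cohen
reals. -/
theorem exists_generic_ext (M : Type u) [Membership M M] [IsZFC M] [Countable M] (a : M) :
    ∃ (k : M) (G : M → Prop) (N : Type u) (_ : Membership N N) (val : M → N),
      Ext (cnd k) (cle k) SigB.em G val ∧ IsZFC N ∧ IsGenericSet (val (ck SigB.em a)) := by
  obtain ⟨κ, hκ, hb, -⟩ := exists_ord (pd a (cnd a))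
  have hsub : Sb (SigB.om : M) (un κ SigB.om) := fun z hz => mem_un.2 (Or.inr hz)
  have hκ' : SigB.Ord (un κ (SigB.om : M)) := ord_un hκ om_ord
  obtain ⟨G, hGen, -⟩ := exists_gen (cPO (pd (pw (un κ (SigB.om : M))) a)) (em_mem_cnd _)
  obtain ⟨N, iN, val, hE⟩ := exists_ext (cPO (pd (pw (un κ (SigB.om : M))) a)) hGen
  have iZ : IsZFC N := hE.isZFC
  exact ⟨_, G, N, iN, val, hE, iZ,
    isGenericSet_cv hκ' hsub (hb.mono_right fun z hz => mem_un.2 (Or.inl hz)) hE⟩

/-- If there is a model of ZFC with a tail-free set then there is a model of ZFC with a tail-free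
set `b` such that Martin's axiom for the finite partial functions from `b` to `{0, 1}` and `|b|`
dense sets holds. -/
theorem exists_model (M : Type u) [Membership M M] [IsZFC M] (a : M) (ha : IsTailFree a) :
    ∃ (N : Type u) (_ : Membership N N), IsZFC N ∧ ∃ b : N, IsTailFree b ∧ IsGenericSet b := by
  obtain ⟨M₀, i₀, iz₀, hc, a, ha⟩ := loewTF M ⟨a, ha⟩
  obtain ⟨k, G, N, iN, val, hE, iZ, hG⟩ := exists_generic_ext M₀ a
  exact ⟨N, iN, iZ, val (ck SigB.em a), isTailFree_cv hE ha, hG⟩

/-- If there is a model of ZFC then there is a model of ZFC in which Martin's axiom for the finite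
partial functions from `ω₁` to `{0, 1}` and `ω₁` dense sets holds. -/
theorem exists_model_omegaOne (M : Type u) [Membership M M] [IsZFC M] :
    ∃ (N : Type u) (_ : Membership N N), IsZFC N ∧ ∃ w : N, IsOmegaOne w ∧ IsGenericSet w := by
  obtain ⟨M₀, i₀, iz₀, hc⟩ := FDia.exists_countable M
  obtain ⟨w, hw⟩ := FDia.exists_w1 (M := M₀)
  obtain ⟨k, G, N, iN, val, hE, iZ, hG⟩ := exists_generic_ext M₀ w
  exact ⟨N, iN, iZ, val (ck SigB.em w), isOmegaOne hw hE, hG⟩

end Pool.Agent.W820.AllM

namespace IPath

open Pool.Agent.W820.AllM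
open Pool.Agent.SigB (IsZFC)

/-- If there is a model of ZFC with a tail-free set then there is a model of ZFC with a tail-free
set `b` such that Martin's axiom for the finite partial functions from `b` to `{0, 1}` and `|b|`
dense sets holds. -/
theorem exists_model (M : Type u) [Membership M M] [IsZFC M] (a : M) (ha : IsTailFree a) :
    ∃ (N : Type u) (_ : Membership N N), IsZFC N ∧ ∃ b : N, IsTailFree b ∧ IsGenericSet b :=
  Pool.Agent.W820.AllM.exists_model M a ha

/-- If there is a model of ZFC then there is a model of ZFC in which Martin's axiom for the finite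
partial functions from `ω₁` to `{0, 1}` and `ω₁` dense sets holds. -/
theorem exists_model_omegaOne (M : Type u) [Membership M M] [IsZFC M] :
    ∃ (N : Type u) (_ : Membership N N), IsZFC N ∧
      ∃ w : N, Pool.Agent.Forc.IsOmegaOne w ∧ IsGenericSet w :=
  Pool.Agent.W820.AllM.exists_model_omegaOne M

end IPath
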