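import Pool.Agent.Work.MP_820435_lc.All.Conv
import Pool.Agent.Work.MP_820435_lc.NegMul
import Pool.Agent.Work.MP_820435_lc.Tft

/-!
# Necessity of a tail-free set
-/

open Ordinal Cardinal Set Order
open Pool.Agent.W820.All

universe u

namespace IPath

theorem exists_tailFree_of_all (h : ∀ α : Ordinal.{u}, ω ∣ α → PathRel α) :
    (∃ A : Type u, TailFreeSet A) ∨ ∀ μ : Cardinal.{u}, ℵ₀ ≤ μ → succ μ < 2 ^ μ := by
  by_contra hcon
  push Not at hcon
  obtain ⟨hno, μ, hμ, hpow⟩ := hcon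
  have hκ : (succ μ).IsRegular := isRegular_succ hμ
  have hκ1 : ℵ₀ < succ μ := hμ.trans_lt (lt_succ μ)
  obtain ⟨ε, -, h1⟩ := not_pathRel_regular_mul hκ hκ1 (by
    intro ρ hρ
    exact (power_le_power_left two_ne_zero (lt_succ_iff.1 hρ)).trans hpow) (by
    intro hTF
    exact hno _ (tailFreeSet_of_tailFreeC (tailFreeC_of_tailFree hTF)))
  refine h1 1 1 ?_ one_ne_zero ?_ (h _ ?_)
  · rw [Ordinal.card_one]
    exact (one_lt_aleph0.trans hκ1).le
  · rw [Ordinal.card_one]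
    exact one_lt_aleph0.trans hκ1
  · rw [mul_one, Ordinal.opow_add, opow_one]
    refine dvd_trans ?_ (dvd_mul_right _ _)
    rw [← ord_aleph0]
    exact ord_dvd_ord aleph0_pos hκ1.le hκ1.le

end IPath
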