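import Pool.Agent.Work.MP_820435_lc.All.Model

/-!
# Outer models with the same ordinals and the same cardinals
-/

universe u

set_option linter.unusedSectionVars false

namespace Pool.Agent.W820.AllM

open Pool.Agent.SigB Pool.Agent.Forc Pool.Agent.Frc Pool.Agent.FTwo

section

variable {M : Type u} [Membership M M] [IsZFC M]

theorem isOrdinal_iff {x : M} : IsOrdinal x ↔ SigB.Ord x := Iff.rfl

theorem isCardinal_iff {x : M} : IsCardinal x ↔ SigB.Ord x ∧ ∀ y, y ∈ x → ¬ Le x y := by
  unfold IsCardinal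
  refine and_congr Iff.rfl (forall_congr' fun y => ?_)
  constructor
  · rintro h hy ⟨f, hf, hfi⟩
    exact h f hy (isInjection_iff.2 ⟨hf, hfi⟩)
  · intro h f hy hf
    exact h hy ⟨f, isInjection_iff.1 hf⟩

variable {k : M} {G : M → Prop} {N : Type u} [Membership N N] {val : M → N} [IsZFC N]

/-- No new injections into ordinals. -/
theorem le_of_cv_le (hE : Ext (cnd k) (cle k) SigB.em G val) {A B : M} (hB : SigB.Ord B)
    (h : Le (val (ck SigB.em A)) (val (ck SigB.em B))) : Le A B := by
  rcases hB.tri om_ord with h1 | h1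
  · -- finite sets
    obtain ⟨κ, hκ, h2, h3⟩ := exists_ord A
    by_cases h5 : B ∈ κ
    · exfalso
      have h6 : Le (sc B) A := (Le.of_sb fun z hz => by
        rcases mem_sc.1 hz with h | h
        · exact hκ.trans h h5
        · rwa [h]).trans h3
      have h7 := (hE.cv_le h6).trans h
      rw [hE.cv_sc] at h7
      refine not_le_fin ?_ h7
      rw [← hE.cv_om]
      exact hE.cv_mem.2 h1
    · exact h2.mono_right ((hB.not_mem_iff hκ).1 h5)
  · have hom : Sb SigB.om B := by
      rcases h1 with h1 | h1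
      · rw [h1]; exact Sb.refl _
      · exact hB.sb h1
    by_cases hA : ∃ a, a ∈ A
    · obtain ⟨g, hg, hgi⟩ := h
      obtain ⟨hg1, hg2⟩ := mem_fs.1 hg
      have hd : Dfn (fun w : Fin 1 → N => ∃ y x, w 0 = op y x ∧ op x y ∈ g) := by
        simp (maxDischargeDepth := 50)
      have hm : ∀ y x, op y x ∈ sp (pd (val (ck SigB.em B)) (val (ck SigB.em A)))
          (fun v => ∃ y x, v = op y x ∧ op x y ∈ g) ↔
          (y ∈ val (ck SigB.em B) ∧ x ∈ val (ck SigB.em A)) ∧ op x y ∈ g := by
        intro y x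
        rw [mem_sp hd, op_mem_pd]
        refine and_congr_right fun _ => ⟨?_, fun h => ⟨y, x, rfl, h⟩⟩
        rintro ⟨y', x', he, h⟩
        obtain ⟨rfl, rfl⟩ := op_inj.1 he
        exact h
      obtain ⟨F', h2, h3⟩ := exists_covering hE (A := B) (B := A)
        (F := sp (pd (val (ck SigB.em B)) (val (ck SigB.em A))) fun v =>
          ∃ y x, v = op y x ∧ op x y ∈ g) hA (by
          intro y hy
          by_cases hy' : ∃ x, x ∈ val (ck SigB.em A) ∧ op x y ∈ g
          · obtain ⟨x, hx, hxy⟩ := hy'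
            refine ⟨pr x x, le_om_pr x x, fun z hz => ?_⟩
            obtain ⟨⟨-, hz1⟩, hz2⟩ := (hm _ _).1 hz
            have h4 : z = x := hgi z x hz1 hx (by
              rw [(hg1.op_mem_iff hz1).1 hz2, (hg1.op_mem_iff hx).1 hxy])
            rw [h4, mem_pr]
            exact Or.inl rfl
          · refine ⟨SigB.em, le_of_empty not_mem_em, fun z hz => ?_⟩
            obtain ⟨⟨-, hz1⟩, hz2⟩ := (hm _ _).1 hz
            exact absurd ⟨z, hz1, hz2⟩ hy')
      have hd2 : ∀ y : M, Dfn (fun w : Fin 1 → M => op y (w 0) ∈ F') := fun y => by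
        simp (maxDischargeDepth := 50)
      have hd3 : DT (fun w : Fin 1 → M => sp A fun x => op (w 0) x ∈ F') := by
        simp (maxDischargeDepth := 50)
      have h4 : Le (sU (im B fun y => sp A fun x => op y x ∈ F')) B := by
        refine Le.union hB hom (Le.image hB (Le.refl B)
          (F := fun y => sp A fun x => op y x ∈ F') hd3 fun z hz => ?_) fun z hz => ?_
        · exact (mem_im hd3).1 hz
        · obtain ⟨y, hy, rfl⟩ := (mem_im hd3).1 hz
          obtain ⟨c, hc, hc'⟩ := h2 y hy
          exact ((hc.mono_left fun x hx => hc' x ((mem_sp (hd2 y)).1 hx).2)).mono_right hom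
      refine h4.mono_left fun x hx => ?_
      have hx' : val (ck SigB.em x) ∈ val (ck SigB.em A) := hE.cv_mem.2 hx
      obtain ⟨y, hy, he⟩ := hE.mem_cv.1 (hg2 _ hx')
      have hy' : val (ck SigB.em y) ∈ val (ck SigB.em B) := hE.cv_mem.2 hy
      have h5 := h3 y x hy hx ((hm _ _).2 ⟨⟨hy', hx'⟩, (hg1.op_mem_iff hx').2 he⟩)
      exact mem_sU.2 ⟨_, (mem_im hd3).2 ⟨y, hy, rfl⟩, (mem_sp (hd2 y)).2 ⟨hx, h5⟩⟩
    · exact le_of_empty fun x hx => hA ⟨x, hx⟩

/-- Cardinals are preserved. -/
theorem isCardinal_cv (hE : Ext (cnd k) (cle k) SigB.em G val) {x : M} :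
    IsCardinal (val (ck SigB.em x)) ↔ IsCardinal x := by
  rw [isCardinal_iff, isCardinal_iff, hE.cv_ord]
  refine and_congr_right fun hx => ?_
  constructor
  · intro h y hy hle
    exact h _ (hE.cv_mem.2 hy) (hE.cv_le hle)
  · intro h y hy hle
    obtain ⟨y₀, hy₀, rfl⟩ := hE.mem_cv.1 hy
    exact h y₀ hy₀ (le_of_cv_le hE (hx.mem hy₀) hle)

end

/-- For every set `a` of a countable model of ZFC there is an outer model of ZFC, with the same
ordinals and the same cardinals, in which Martin's axiom for the finite partial functions from `a`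
to `{0, 1}` and `|a|` dense sets holds; and `a` remains tail-free if it is tail-free. -/
theorem exists_outer (M : Type u) [Membership M M] [IsZFC M] [Countable M] (a : M) :
    ∃ (N : Type u) (_ : Membership N N) (e : M → N), IsZFC N ∧ (∀ x y, e x ∈ e y ↔ x ∈ y) ∧
      (∀ x z, z ∈ e x → ∃ y, y ∈ x ∧ z = e y) ∧ (∀ z, IsOrdinal z → ∃ x, z = e x) ∧
      (∀ x, IsCardinal (e x) ↔ IsCardinal x) ∧ (IsTailFree a → IsTailFree (e a)) ∧
      IsGenericSet (e a) := by
  obtain ⟨k, G, N, iN, val, hE, iZ, hG⟩ := exists_generic_ext M a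
  refine ⟨N, iN, fun x => val (ck SigB.em x), iZ, fun x y => hE.cv_mem,
    fun x z hz => hE.mem_cv.1 hz, fun z hz => ?_, fun x => isCardinal_cv hE,
    fun ha => isTailFree_cv hE ha, hG⟩
  obtain ⟨α, -, h⟩ := hE.ord_eq hz
  exact ⟨α, h⟩

end Pool.Agent.W820.AllM

namespace IPath

open Pool.Agent.W820.AllM
open Pool.Agent.SigB (IsZFC IsOrdinal IsCardinal)

/-- For every set `a` of a countable model of ZFC there is an outer model of ZFC, with the same
ordinals and the same cardinals, in which Martin's axiom for the finite partial functions from `a`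
to `{0, 1}` and `|a|` dense sets holds; and `a` remains tail-free if it is tail-free. -/
theorem exists_outer (M : Type u) [Membership M M] [IsZFC M] [Countable M] (a : M) :
    ∃ (N : Type u) (_ : Membership N N) (e : M → N), IsZFC N ∧ (∀ x y, e x ∈ e y ↔ x ∈ y) ∧
      (∀ x z, z ∈ e x → ∃ y, y ∈ x ∧ z = e y) ∧ (∀ z, IsOrdinal z → ∃ x, z = e x) ∧
      (∀ x, IsCardinal (e x) ↔ IsCardinal x) ∧ (IsTailFree a → IsTailFree (e a)) ∧
      IsGenericSet (e a) :=
  Pool.Agent.W820.AllM.exists_outer M a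

end IPath
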