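import Pool.Agent.Work.MP_820435_lc.All.Conv
import Pool.Agent.Work.MP_820435_lc.PosReg2
import Pool.Agent.Work.MP_820435_lc.Cnf

/-!
# Every limit ordinal
-/

open Ordinal Cardinal Set Order
open Pool.Agent.W820.All Pool.Agent.W820

universe u

namespace IPath

/-- Every limit ordinal has the relation, if those of cardinality at most `#A` have. -/
theorem pathRel_of_tailFree {A : Type u} (hT : TailFreeSet A)
    (hcore : ∀ γ : Ordinal.{u}, γ.card ≤ #A → ω ∣ γ → PathRel γ)
    {α : Ordinal.{u}} (hlim : ω ∣ α) : PathRel α := by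
  have hTC : TailFreeC A := tailFreeC_of_tailFreeSet hT
  have hu : Uncountable A := hTC.uncountable
  have hA : ℵ₀ ≤ #A := (aleph0_lt_mk_iff.2 hu).le
  have hκ : (succ #A).IsRegular := isRegular_succ hA
  have hκ1 : ℵ₀ < succ #A := hA.trans_lt (lt_succ _)
  have hκω : ω ∣ (succ #A).ord := by
    rw [← ord_aleph0]
    exact ord_dvd_ord aleph0_pos hκ1.le hκ1.le
  have hTK : TailFreeC (succ #A).ord.ToType := by
    have h1 : #A ≤ #(succ #A).ord.ToType := by
      rw [mk_toType, card_ord]
      exact le_succ _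
    obtain ⟨e⟩ := h1
    exact tailFreeC_of_embedding e hTC
  have h0 : (succ #A).ord ≠ 0 := by
    rw [Ne, ord_eq_zero]
    exact (aleph0_pos.trans hκ1).ne'
  have hdvd : ω ∣ α % (succ #A).ord := by
    have h2 : ω ∣ (succ #A).ord * (α / (succ #A).ord) := hκω.trans (dvd_mul_right _ _)
    rw [← dvd_add_iff h2, div_add_mod]
    exact hlim
  have hcard : (α % (succ #A).ord).card ≤ #A := by
    rw [← lt_succ_iff, ← lt_ord]
    exact mod_lt _ h0
  have h3 := (pathRel_mul_add_iff_reg hκ hTK (α / (succ #A).ord) (α % (succ #A).ord)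
    (zero_or_limit_iff.2 hdvd)).2 (hcore _ hcard hdvd)
  rwa [div_add_mod] at h3

end IPath
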