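import Pool.Agent.Work.MP_820435_lc.All.Core
import Pool.Agent.Work.MP_820435_lc.All.Final

/-!
# Every limit ordinal has the relation
-/

open Ordinal Cardinal Set Order
open Pool.Agent.W820.All Pool.Agent.W820

universe u

namespace IPath

/-- If there is a tail-free set `A` for which Martin's axiom for the finite partial functions from
`A` to `{0, 1}` and `|A|` dense sets holds, then every limit ordinal has the relation. -/
theorem pathRel_of_tailFree_generic {A : Type u} (hT : TailFreeSet A) (hG : GenericSet A)
    {α : Ordinal.{u}} (hlim : ω ∣ α) : PathRel α := by
  have hu : Uncountable A := (tailFreeC_of_tailFreeSet hT).uncountable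
  exact pathRel_of_tailFree hT (fun γ hγ h => pathRel_of_generic hG hγ h) hlim

end IPath
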