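import Pool.Agent.Work.MP_820435_lc.All.Defs
import Pool.Agent.Work.MP_820435_lc.TFc

/-!
# Tail-free sets: finite subsets and finite sequences
-/

open Set

universe u

namespace Pool.Agent.W820.All

open Pool.Agent.W820

theorem image_Ioc_eq {A : Type u} (y : ℕ → A) (i n : ℕ) :
    y '' Ioc i (i + n) = {x | x ∈ (List.range n).map (fun k => y (i + 1 + k))} := by
  ext x
  simp only [mem_image, mem_Ioc, mem_ofPred_eq, List.mem_map, List.mem_range]
  constructor
  · rintro ⟨k, ⟨h1, h2⟩, rfl⟩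
    exact ⟨k - (i + 1), by omega, by congr 1; omega⟩
  · rintro ⟨k, h1, rfl⟩
    exact ⟨i + 1 + k, ⟨by omega, by omega⟩, rfl⟩

theorem tailFreeC_of_tailFreeSet {A : Type u} (h : TailFreeSet A) : TailFreeC A := by
  intro F hF
  obtain ⟨y, hy⟩ := h (fun s => ⋃ l ∈ {l : List A | ∀ x ∈ l, x ∈ s}, F l) (by
    intro s hs
    have hc : {l : List A | ∀ x ∈ l, x ∈ s}.Countable := by
      have := hs.countable.to_subtype
      have h1 : {l : List A | ∀ x ∈ l, x ∈ s} ⊆ range (fun l : List s => l.map Subtype.val) := by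
        intro l hl
        refine ⟨l.attach.map (fun x => ⟨x.1, hl x.1 x.2⟩), ?_⟩
        simp
      exact (countable_range _).mono h1
    exact hc.biUnion (fun l _ => hF l))
  refine ⟨y, fun i n hmem => hy i (i + n) ?_⟩
  rw [mem_iUnion₂]
  refine ⟨(List.range n).map (fun k => y (i + 1 + k)), ?_, hmem⟩
  intro x hx
  rw [image_Ioc_eq]
  exact hx

theorem tailFreeSet_of_tailFreeC {A : Type u} (h : TailFreeC A) : TailFreeSet A := by
  intro F hF
  obtain ⟨y, hy⟩ := h (fun l => F {x | x ∈ l}) (fun l => hF _ (List.finite_toSet l))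
  refine ⟨y, fun i n hmem => ?_⟩
  rcases le_total i n with hin | hin
  · obtain ⟨k, rfl⟩ := Nat.exists_eq_add_of_le hin
    rw [image_Ioc_eq] at hmem
    exact hy i k hmem
  · have h1 : Ioc i n = Ioc i (i + 0) := by
      rw [Ioc_eq_empty (not_lt.2 hin), Ioc_eq_empty (by omega)]
    rw [h1, image_Ioc_eq] at hmem
    exact hy i 0 hmem

theorem tailFreeSet_iff {A : Type u} : TailFreeSet A ↔ TailFreeC A :=
  ⟨tailFreeC_of_tailFreeSet, tailFreeSet_of_tailFreeC⟩

end Pool.Agent.W820.All
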