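import Pool.Agent.Work.MP_820435_lc.Fusion

/-!
# Intervals of a set of order type `ω ^ f`, and sets with rich tails
-/

open Ordinal Cardinal Set Order

universe u

namespace IPath

/-- The next element. -/
theorem exists_next {I : Type u} [LinearOrder I] [WellFoundedLT I] [NoMaxOrder I] (i : I) :
    ∃ i', i < i' ∧ ∀ j, i < j → i' ≤ j := by
  obtain ⟨i', h1, h2⟩ := (wellFounded_lt (α := I)).has_min {j | i < j} (exists_gt i)
  exact ⟨i', h1, fun j hj => not_lt.1 (h2 j hj)⟩

/-- A final segment of a set of type `ω ^ d`. -/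
theorem opow_le_otp_tail {I : Type u} [LinearOrder I] [WellFoundedLT I] [NoMaxOrder I]
    {d : Ordinal.{u}} (hI : otp I = ω ^ d) (i : I) : ω ^ d ≤ otp {j : I | i < j} := by
  obtain ⟨i', hi1, hi2⟩ := exists_next i
  rcases cover_set (W := (univ : Set I)) (A := {j | j < i'}) (A' := {j | i < j}) (τ := d)
    (by
      intro j _
      rcases lt_or_ge i j with h | h
      · exact Or.inr h
      · exact Or.inl (h.trans_lt hi1)) (by rw [otp_univ, hI]) with h | h
  · exfalso
    have h1 : otp (univ ∩ {j : I | j < i'} : Set I) ≤ otp {j : I | j < i'} :=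
      otp_set_mono inter_subset_right
    have h2 : otp {j : I | j < i'} < otp I := by
      have h3 := typein_lt_type (α := I) (· < ·) i'
      rwa [← type_subrel] at h3
    rw [hI] at h2
    exact absurd (h.trans h1) (not_le.2 h2)
  · exact h.trans (otp_set_mono inter_subset_right)

/-- An interval of type `ω ^ f'` in which `C` is small. -/
theorem exists_interval {X : Type u} [LinearOrder X] [WellFoundedLT X] (S C : Set X)
    {f f' : Ordinal.{u}} (hf : f' < f) (hS : otp S = ω ^ f) (hC : C ⊆ S) (hC' : otp C < ω ^ f)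
    (x₀ : X) (hx₀ : x₀ ∈ S) :
    ∃ x₁ ∈ S, ∃ y₁ ∈ S, x₀ ≤ x₁ ∧ otp (S ∩ Ico x₁ y₁ : Set X) = ω ^ f' ∧
      otp (C ∩ Ico x₁ y₁ : Set X) < ω ^ f' := by
  obtain ⟨d, rfl⟩ : ∃ d, f = f' + d := ⟨f - f', (Ordinal.add_sub_cancel_of_le hf.le).symm⟩
  have hd : 0 < d := by
    by_contra hcon
    rw [not_lt, nonpos_iff_eq_zero] at hcon
    rw [hcon, add_zero] at hf
    exact hf.false
  set I := (ω ^ d : Ordinal.{u}).ToType with hI
  set Z := (ω ^ f' : Ordinal.{u}).ToType with hZ
  have hIt : otp I = ω ^ d := otp_toType _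
  have hZt : otp Z = ω ^ f' := otp_toType _
  have : NoMaxOrder I := by
    rw [← isSuccPrelimit_type_lt_iff]
    change IsSuccPrelimit (otp I)
    rw [hIt]
    exact (isSuccLimit_opow_left isSuccLimit_omega0 hd.ne').isSuccPrelimit
  have hZne : Nonempty Z := by
    rw [← type_ne_zero_iff_nonempty (α := Z) (r := (· < ·))]
    change otp Z ≠ 0
    rw [hZt]
    exact opow_ne_zero _ omega0_ne_zero
  obtain ⟨e⟩ := exists_orderIso_of_otp_eq (α := I ×ₗ Z) (β := S) (by
    rw [otp_prodLex, hIt, hZt, ← opow_add, hS])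
  obtain ⟨z0, -, hz0⟩ := (wellFounded_lt (α := Z)).has_min univ univ_nonempty
  have hz0' : ∀ z, z0 ≤ z := fun z => not_lt.1 (hz0 z (mem_univ z))
  set i0 := (ofLex (e.symm ⟨x₀, hx₀⟩)).1 with hi0
  -- the pieces
  have hpiece : ∀ i i' : I, i < i' → (∀ j, i < j → i' ≤ j) →
      (S ∩ Ico (e (toLex (i, z0)) : X) (e (toLex (i', z0)) : X) : Set X) =
        (fun z : Z => (e (toLex (i, z)) : X)) '' univ := by
    intro i i' h1 h2
    ext x
    constructor
    · rintro ⟨hx, hx1, hx2⟩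
      obtain ⟨p, hp⟩ := e.surjective ⟨x, hx⟩
      have hx1' : e (toLex (i, z0)) ≤ e p := by
        rw [hp]
        exact hx1
      have hx2' : e p < e (toLex (i', z0)) := by
        rw [hp]
        exact hx2
      rw [e.le_iff_le, Prod.Lex.le_iff] at hx1'
      rw [e.lt_iff_lt, Prod.Lex.lt_iff] at hx2'
      have h3 : i = (ofLex p).1 := by
        rcases hx1' with h4 | ⟨h4, -⟩
        · exfalso
          have h5 : i < (ofLex p).1 := h4
          have h6 := h2 _ h5
          rcases hx2' with h7 | ⟨-, h8⟩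
          · exact absurd h7 (not_lt.2 h6)
          · exact absurd h8 (not_lt.2 (hz0' _))
        · exact h4
      refine ⟨(ofLex p).2, mem_univ _, ?_⟩
      change (e (toLex (i, (ofLex p).2)) : X) = x
      rw [h3]
      change (e p : X) = x
      rw [hp]
    · rintro ⟨z, -, rfl⟩
      refine ⟨(e (toLex (i, z))).2, ?_, ?_⟩
      · have : e (toLex (i, z0)) ≤ e (toLex (i, z)) := by
          rw [e.le_iff_le, Prod.Lex.le_iff]
          exact Or.inr ⟨rfl, hz0' z⟩
        exact this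
      · have : e (toLex (i, z)) < e (toLex (i', z0)) := by
          rw [e.lt_iff_lt, Prod.Lex.lt_iff]
          exact Or.inl h1
        exact this
  have hmono : ∀ i : I, StrictMono (fun z : Z => (e (toLex (i, z)) : X)) := by
    intro i z z' hz
    have : e (toLex (i, z)) < e (toLex (i, z')) := by
      rw [e.lt_iff_lt, Prod.Lex.lt_iff]
      exact Or.inr ⟨rfl, hz⟩
    exact this
  -- a fibre in which `C` is small
  obtain ⟨i, hi1, hi2⟩ : ∃ i, i0 < i ∧
      otp {z : Z | (e (toLex (i, z)) : X) ∈ C} < ω ^ f' := by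
    by_contra hcon
    push Not at hcon
    have h1 := mul_le_otp_of_fib {p : I ×ₗ Z | (e p : X) ∈ C} {i | i0 < i} (ω ^ f')
      (fun i hi => hcon i hi)
    have h2 : otp {p : I ×ₗ Z | (e p : X) ∈ C} ≤ otp C :=
      otp_le_of_strictMono (fun p => (⟨(e p.1 : X), p.2⟩ : C)) fun p q hpq => e.lt_iff_lt.2 hpq
    have h3 : (ω : Ordinal.{u}) ^ f' * ω ^ d ≤ ω ^ f' * otp {i : I | i0 < i} := by
      gcongr
      exact opow_le_otp_tail hIt i0
    rw [← opow_add] at h3
    exact absurd (h3.trans (h1.trans h2)) (not_le.2 hC')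
  obtain ⟨i', hi3, hi4⟩ := exists_next i
  refine ⟨e (toLex (i, z0)), (e _).2, e (toLex (i', z0)), (e _).2, ?_, ?_, ?_⟩
  · have : (⟨x₀, hx₀⟩ : S) ≤ e (toLex (i, z0)) := by
      rw [← e.symm.le_iff_le, e.symm_apply_apply, Prod.Lex.le_iff]
      exact Or.inl hi1
    exact this
  · rw [hpiece i i' hi3 hi4, otp_image _ (hmono i), otp_univ, hZt]
  · have h1 : (C ∩ Ico (e (toLex (i, z0)) : X) (e (toLex (i', z0)) : X) : Set X) =
        (fun z : Z => (e (toLex (i, z)) : X)) '' {z : Z | (e (toLex (i, z)) : X) ∈ C} := by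
      ext x
      constructor
      · rintro ⟨hx, hx1⟩
        have h2 : x ∈ (S ∩ Ico (e (toLex (i, z0)) : X) (e (toLex (i', z0)) : X) : Set X) :=
          ⟨hC hx, hx1⟩
        rw [hpiece i i' hi3 hi4] at h2
        obtain ⟨z, -, rfl⟩ := h2
        exact ⟨z, hx, rfl⟩
      · rintro ⟨z, hz, rfl⟩
        refine ⟨hz, ?_⟩
        have h2 : (e (toLex (i, z)) : X) ∈
            (S ∩ Ico (e (toLex (i, z0)) : X) (e (toLex (i', z0)) : X) : Set X) := by
          rw [hpiece i i' hi3 hi4]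
          exact ⟨z, mem_univ _, rfl⟩
        exact h2.2
    rw [h1, otp_image _ (hmono i)]
    exact hi2

/-- The type of a set with rich tails. -/
theorem opow_le_otp_of_tails {X : Type u} [LinearOrder X] [WellFoundedLT X] (S Y : Set X)
    {f : Ordinal.{u}} (hf : f ≠ 0) (hS : S.Nonempty)
    (h : ∀ f' < f, ∀ x₀ ∈ S, ∃ x₁, ∃ y₁ ∈ S, x₀ ≤ x₁ ∧ ω ^ f' ≤ otp (Y ∩ S ∩ Ico x₁ y₁ : Set X)) :
    ω ^ f ≤ otp (Y ∩ S : Set X) := by
  apply opow_le_of_forall_mul omega0_ne_zero hf
  intro f' hf'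
  have h1 : ∀ n : ℕ, ∃ s ∈ S, ω ^ f' * n ≤ otp (Y ∩ S ∩ Iio s : Set X) := by
    intro n
    induction n with
    | zero =>
      obtain ⟨s, hs⟩ := hS
      exact ⟨s, hs, by simp⟩
    | succ n ih =>
      obtain ⟨s, hs, h1⟩ := ih
      obtain ⟨x₁, y₁, hy₁, h2, h3⟩ := h f' hf' s hs
      refine ⟨y₁, hy₁, ?_⟩
      have h4 : otp (Y ∩ S ∩ Iio s : Set X) + otp (Y ∩ S ∩ Ico x₁ y₁ : Set X) ≤
          otp (Y ∩ S ∩ Iio y₁ : Set X) := by
        by_cases hne : (Y ∩ S ∩ Ico x₁ y₁ : Set X).Nonempty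
        · obtain ⟨w, -, hw1, hw2⟩ := hne
          apply otp_add_le
          · rintro x ⟨hx1, hx2⟩
            exact ⟨hx1, lt_of_lt_of_le hx2 (h2.trans (hw1.trans hw2.le))⟩
          · rintro x ⟨hx1, hx2⟩
            exact ⟨hx1, hx2.2⟩
          · rintro x ⟨-, hx⟩ y ⟨-, hy, -⟩
            exact lt_of_lt_of_le hx (h2.trans hy)
        · exfalso
          rw [not_nonempty_iff_eq_empty] at hne
          rw [hne] at h3
          have h5 : otp (∅ : Set X) = 0 := by
            rw [type_eq_zero_iff_isEmpty]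
            infer_instance
          rw [h5, nonpos_iff_eq_zero] at h3
          exact opow_ne_zero _ omega0_ne_zero h3
      have h5 : ω ^ f' * ((n + 1 : ℕ) : Ordinal.{u}) = ω ^ f' * n + ω ^ f' := by
        rw [Nat.cast_add, Nat.cast_one, mul_add, mul_one]
      rw [h5]
      exact (add_le_add h1 h3).trans h4
  rw [mul_le_iff_of_isSuccLimit isSuccLimit_omega0]
  intro b hb
  obtain ⟨n, rfl⟩ := lt_omega0.1 hb
  obtain ⟨s, -, h2⟩ := h1 n
  exact h2.trans (otp_set_mono inter_subset_left)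

end IPath
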