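import Pool.Agent.Work.MP_820435_lc.All.Gen
import Pool.Agent.Work.MP_820435_lc.All.Interval
import Pool.Agent.Work.MP_820435_lc.Graph
import Pool.Agent.Work.MP_820435_lc.Cnf

/-!
# The relation from generic functions
-/

open Ordinal Cardinal Set Order
open Pool.Agent.W820.All

universe u

namespace IPath

section stop

variable {X : Type u} {G : SimpleGraph X} (P : X → List X)

/-- A stopping node for a property of nodes. -/
theorem exists_stop_of (hG : ¬ HasRay G) (hP : ∀ v, (P v).IsChain G.Adj ∧ (P v).Nodup)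
    (Q : List X → Prop) (h0 : Q []) (hne : ∀ L, Q L → (cone P L).Nonempty) :
    ∃ L, Q L ∧ ∀ a, ¬ Q (a :: L) := by
  by_contra hcon
  push Not at hcon
  have hE : Nonempty X := by
    obtain ⟨v, -⟩ := hne _ h0
    exact ⟨v⟩
  choose! a ha using hcon
  let Ls : ℕ → List X := fun n => Nat.rec [] (fun _ L => a L :: L) n
  have hLs : ∀ n, Ls (n + 1) = a (Ls n) :: Ls n := fun n => rfl
  have hQ : ∀ n, Q (Ls n) := by
    intro n
    induction n with
    | zero => exact h0
    | succ n ih => exact ha _ ih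
  have hne' : ∀ n, ∃ v, Ls n <:+ P v := fun n => hne _ (hQ n)
  have hmono : ∀ n m, n ≤ m → Ls n <:+ Ls m := by
    intro n m h
    induction m, h using Nat.le_induction with
    | base => exact List.suffix_refl _
    | succ m _ ih => exact ih.trans (List.suffix_cons _ _)
  apply hG
  refine ⟨fun n => a (Ls n), ?_, ?_⟩
  · have key : ∀ n m, n < m → a (Ls n) ≠ a (Ls m) := by
      intro n m hnm heq
      obtain ⟨v, hv⟩ := hne' (m + 1)
      have h1 := (hP v).2.sublist hv.sublist
      rw [hLs, List.nodup_cons] at h1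
      apply h1.1
      rw [← heq]
      apply (hmono (n + 1) m hnm).subset
      rw [hLs]
      simp
    intro n m hnm
    rcases lt_trichotomy n m with h | h | h
    · exact absurd hnm (key n m h)
    · exact h
    · exact absurd hnm.symm (key m n h)
  · intro n
    obtain ⟨v, hv⟩ := hne' (n + 2)
    have h1 := (hP v).1.suffix hv
    rw [hLs (n + 1), hLs n, List.isChain_cons_cons] at h1
    exact h1.1.symm

/-- Two cones which meet. -/
theorem cone_inter {L L' : List X} (h : (cone P L ∩ cone P L').Nonempty) :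
    ∃ L'', cone P L ∩ cone P L' = cone P L'' := by
  obtain ⟨v, h1, h2⟩ := h
  rcases List.suffix_or_suffix_of_suffix h1 h2 with h3 | h3
  · exact ⟨L', subset_antisymm inter_subset_right fun w hw => ⟨h3.trans hw, hw⟩⟩
  · exact ⟨L, subset_antisymm inter_subset_left fun w hw => ⟨hw, h3.trans hw⟩⟩

end stop

section core

variable {X : Type u} [LinearOrder X] [WellFoundedLT X] {G : SimpleGraph X} (P : X → List X)

theorem otp_eq_zero {S : Set X} (h : S = ∅) : otp S = 0 := by
  subst h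
  rw [otp, type_eq_zero_iff_isEmpty]
  infer_instance

/-- Finite unions of small sets are small. -/
theorem otp_biUnion_lt {f : Ordinal.{u}} {W : Type u} (s : Set W) (hs : s.Finite)
    (C : W → Set X) (h : ∀ w ∈ s, otp (C w) < ω ^ f) : otp (⋃ w ∈ s, C w) < ω ^ f := by
  induction s, hs using Set.Finite.induction_on with
  | empty =>
    have h1 : (⋃ w ∈ (∅ : Set W), C w) = ∅ := by simp
    rw [h1]
    have h2 : otp (∅ : Set X) = 0 := by
      rw [otp, type_eq_zero_iff_isEmpty]
      infer_instance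
    rw [h2]
    exact opow_pos _ omega0_pos
  | @insert a s ha hs ih =>
    have h1 := ih fun w hw => h w (mem_insert_of_mem _ hw)
    have h2 := h a (mem_insert _ _)
    by_contra hcon
    rw [not_lt] at hcon
    rcases cover_opow f _ hcon {x | x.1 ∈ C a} {x | x.1 ∈ ⋃ w ∈ s, C w} (by
      rw [eq_univ_iff_forall]
      rintro ⟨x, hx⟩
      rw [biUnion_insert] at hx
      exact hx) with h3 | h3
    · rw [otp_subtype] at h3
      exact absurd (h3.trans (otp_set_mono inter_subset_right)) (not_le.2 h2)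
    · rw [otp_subtype] at h3
      exact absurd (h3.trans (otp_set_mono inter_subset_right)) (not_le.2 h1)

theorem otp_union_lt {f : Ordinal.{u}} {C C' : Set X} (h : otp C < ω ^ f) (h' : otp C' < ω ^ f) :
    otp (C ∪ C' : Set X) < ω ^ f := by
  by_contra hcon
  rw [not_lt] at hcon
  rcases cover_opow f _ hcon {x | x.1 ∈ C} {x | x.1 ∈ C'} (by
    rw [eq_univ_iff_forall]
    rintro ⟨x, hx⟩
    exact hx) with h3 | h3
  · rw [otp_subtype] at h3
    exact absurd (h3.trans (otp_set_mono inter_subset_right)) (not_le.2 h)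
  · rw [otp_subtype] at h3
    exact absurd (h3.trans (otp_set_mono inter_subset_right)) (not_le.2 h')

/-- `L` is a stopping node of the set `S` of type `ω ^ f`. -/
def Stop (S : Set X) (f : Ordinal.{u}) (L : List X) : Prop :=
  ω ^ f ≤ otp (S ∩ cone P L : Set X) ∧ ∀ a, otp (S ∩ cone P (a :: L) : Set X) < ω ^ f

theorem exists_stop_otp (hG : ¬ HasRay G) (hP : ∀ v, (P v).IsChain G.Adj ∧ (P v).Nodup)
    (S : Set X) {f : Ordinal.{u}} (hS : ω ^ f ≤ otp S) : ∃ L, Stop P S f L := by
  obtain ⟨L, h1, h2⟩ := exists_stop_of P hG hP (fun L => ω ^ f ≤ otp (S ∩ cone P L : Set X)) (by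
    have : S ∩ cone P [] = S := by
      ext v
      simp [cone]
    rw [this]
    exact hS) (by
    intro L hL
    by_contra hcon
    rw [not_nonempty_iff_eq_empty] at hcon
    rw [hcon, inter_empty] at hL
    have h2 : otp (∅ : Set X) = 0 := by
      rw [otp, type_eq_zero_iff_isEmpty]
      infer_instance
    rw [h2] at hL
    exact absurd hL (not_le.2 (opow_pos _ omega0_pos)))
  exact ⟨L, h1, fun a => not_le.1 (h2 a)⟩

/-- The points whose branch is a part of `L`. -/
def Rt (L : List X) : Set X := {w | P w <:+ L}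

theorem finite_Rt (hP : Function.Injective P) (L : List X) : (Rt P L).Finite := by
  have h1 : ({L' : List X | L' <:+ L}).Finite := by
    refine (List.finite_toSet L.tails).subset ?_
    intro L' hL'
    exact (List.mem_tails L' L).2 hL'
  exact Set.Finite.preimage (f := P) hP.injOn h1

/-- Cones at points outside the root are small. -/
theorem otp_cone_lt {S : Set X} {f : Ordinal.{u}} {L : List X} (hL : Stop P S f L) {w : X}
    (hw : w ∉ Rt P L) : otp (cone P (P w) ∩ (S ∩ cone P L) : Set X) < ω ^ f := by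
  rcases (cone P (P w) ∩ (S ∩ cone P L)).eq_empty_or_nonempty with h | ⟨v, h1, h2, h3⟩
  · rw [h]
    have h2 : otp (∅ : Set X) = 0 := by
      rw [otp, type_eq_zero_iff_isEmpty]
      infer_instance
    rw [h2]
    exact opow_pos _ omega0_pos
  · have h4 : L <:+ P w := by
      rcases List.suffix_or_suffix_of_suffix h3 h1 with h | h
      · exact h
      · exact absurd h hw
    rcases suffix_cases h4 with h5 | ⟨a, h5⟩
    · exact absurd (by rw [Rt, mem_ofPred_eq, h5]) hw
    · refine (otp_set_mono ?_).trans_lt (hL.2 a)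
      rintro u ⟨h6, h7, -⟩
      exact ⟨h7, h5.trans h6⟩

/-- The blocks. -/
def Blk (x : X) (y : Option X) (L : List X) : Set X :=
  {v | x ≤ v ∧ (∀ z ∈ y, v < z)} ∩ cone P L

theorem blk_inter_Ico {x x₁ y₁ : X} {y : Option X} {L L' : List X}
    (hne : (Blk P x y L ∩ cone P L' ∩ Ico x₁ y₁).Nonempty) (hx₁ : x₁ ∈ Blk P x y L)
    (hy₁ : y₁ ∈ Blk P x y L) :
    ∃ L'', Blk P x y L ∩ cone P L' ∩ Ico x₁ y₁ = Blk P x₁ (some y₁) L'' := by
  obtain ⟨v, ⟨⟨-, h1⟩, h2⟩, -⟩ := hne
  obtain ⟨L'', h3⟩ := cone_inter P (L := L) (L' := L') ⟨v, h1, h2⟩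
  refine ⟨L'', ?_⟩
  rw [Blk, Blk, ← h3]
  ext w
  simp only [mem_inter_iff, mem_ofPred_eq, mem_Ico, Option.mem_def, Option.some.injEq]
  constructor
  · rintro ⟨⟨⟨-, h4⟩, h5⟩, h6, h7⟩
    exact ⟨⟨h6, fun z hz => hz ▸ h7⟩, h4, h5⟩
  · rintro ⟨⟨h4, h5⟩, h6, h7⟩
    exact ⟨⟨⟨⟨hx₁.1.1.trans h4, fun z hz => (h5 _ rfl).trans (hy₁.1.2 z hz)⟩, h6⟩, h7⟩, h4,
      h5 _ rfl⟩

end core

/-- The relation at the powers of `ω`. -/
theorem pathRel_opow_of_generic {A : Type u} [Infinite A] (h : GenericSet A) {e : Ordinal.{u}}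
    (hα : (ω ^ e : Ordinal.{u}).card ≤ #A) : PathRel (ω ^ e) := by
  classical
  intro X _ _ hX G
  by_cases hG : HasRay G
  · exact Or.inr hG
  left
  have hXA : #X ≤ #A := by
    have := congrArg Ordinal.card hX
    rw [card_type] at this
    rw [this]
    exact hα
  obtain ⟨P, hP1, hP2, hP3⟩ := exists_tree hG
  -- the empty type of ordinals is excluded
  have hXne : Nonempty X := by
    rw [← type_ne_zero_iff_nonempty (α := X) (r := (· < ·))]
    show otp X ≠ 0
    rw [hX]
    exact (opow_pos _ omega0_pos).ne'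
  obtain ⟨x0⟩ := hXne
  obtain ⟨m0, hm0⟩ : ∃ m : X, ∀ v, m ≤ v :=
    ⟨wellFounded_lt.min (Set.univ : Set X) ⟨x0, trivial⟩, fun v =>
      not_lt.1 (wellFounded_lt.not_lt_min _ (mem_univ v))⟩
  -- the stopping nodes
  set ST : Set X → Ordinal.{u} → List X := fun S f =>
    if h : ∃ L, Stop P S f L then h.choose else [] with hST
  have hSTs : ∀ (S : Set X) (f : Ordinal.{u}), ω ^ f ≤ otp S → Stop P S f (ST S f) := by
    intro S f hS
    have h1 := exists_stop_otp P hG hP2 S hS
    have h2 : ST S f = h1.choose := dif_pos h1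
    rw [h2]
    exact h1.choose_spec
  -- the good conditions for a block `S`, `f`, `f'`, `x₀`
  set Gd : Set X → Ordinal.{u} → Ordinal.{u} → X → Set (Set (X × Bool)) := fun S f f' x₀ =>
    {p | ∃ x₁ ∈ S ∩ cone P (ST S f), ∃ y₁ ∈ S ∩ cone P (ST S f), x₀ ≤ x₁ ∧ x₁ < y₁ ∧
      ((f' = 0 ∧ (x₁, true) ∈ p ∧ ∀ w, P w <:+ P x₁ → w ≠ x₁ → w ∉ Rt P (ST S f) →
        (w, false) ∈ p) ∨
      (f' ≠ 0 ∧ otp (S ∩ cone P (ST S f) ∩ Ico x₁ y₁ : Set X) = ω ^ f' ∧
        ∀ w ∈ Rt P (ST (S ∩ cone P (ST S f) ∩ Ico x₁ y₁) f'), w ∉ Rt P (ST S f) →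
          (w, false) ∈ p))} with hGd
  have hdense : ∀ (S : Set X) (f f' : Ordinal.{u}) (x₀ : X), otp S = ω ^ f → f ≠ 0 → f' < f → x₀ ∈ S ∩ cone P (ST S f) →
      ∀ q, IsCond q → ∃ p ∈ Gd S f f' x₀, IsCond p ∧ q ⊆ p := by
    intro S f f' x₀ hS hf hf' hx₀ q hq
    have hstop := hSTs S f hS.ge
    set L := ST S f with hL
    set S' := S ∩ cone P L with hS'
    have hS'o : otp S' = ω ^ f := le_antisymm ((otp_set_mono inter_subset_left).trans hS.le)
      hstop.1
    set W : Set X := Prod.fst '' q with hW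
    have hWf : W.Finite := hq.1.image _
    have hRf := finite_Rt P hP1 L
    set C : Set X := (⋃ w ∈ (W \ Rt P L), cone P (P w) ∩ S') ∪ (Rt P L ∩ S') with hC
    have hCs : C ⊆ S' := by
      rintro v (hv | hv)
      · simp only [mem_iUnion] at hv
        obtain ⟨w, -, hv⟩ := hv
        exact hv.2
      · exact hv.2
    have hCo : otp C < ω ^ f := by
      refine otp_union_lt (otp_biUnion_lt _ (hWf.subset sdiff_subset) _ fun w hw =>
        otp_cone_lt P hstop hw.2) ?_
      have h1 : (Rt P L ∩ S').Finite := hRf.subset inter_subset_left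
      have h2 : otp (Rt P L ∩ S' : Set X) < ω := by
        have h3 := h1.to_subtype
        have h4 : #(Rt P L ∩ S' : Set X) < ℵ₀ := lt_aleph0_of_finite _
        have h5 : (otp (Rt P L ∩ S' : Set X)).card < ℵ₀ := by rwa [card_type]
        exact card_lt_aleph0.1 h5
      refine h2.trans_le ?_
      conv_lhs => rw [← opow_one ω]
      exact opow_le_opow_right omega0_pos (one_le_iff_ne_zero.2 hf)
    obtain ⟨x₁, hx₁, y₁, hy₁, h1, h2, h3⟩ := exists_interval S' C hf' hS'o hCs hCo x₀ hx₀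
    have hxy : x₁ < y₁ := by
      by_contra hcon
      rw [Ico_eq_empty hcon, inter_empty] at h2
      have h4 : otp (∅ : Set X) = 0 := by
        rw [otp, type_eq_zero_iff_isEmpty]
        infer_instance
      rw [h4] at h2
      exact (opow_pos f' omega0_pos).ne h2
    rcases eq_or_ne f' 0 with h0 | h0
    · -- one point
      rw [h0, opow_zero, Order.lt_one_iff] at h3
      have hx₁C : x₁ ∉ C := by
        intro hmem
        rw [otp, type_eq_zero_iff_isEmpty] at h3
        exact h3.elim ⟨x₁, hmem, le_rfl, hxy⟩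
      have hx₁R : x₁ ∉ Rt P L := fun hmem => hx₁C (Or.inr ⟨hmem, hx₁⟩)
      have hWx : ∀ w, w ∉ Rt P L → P w <:+ P x₁ → w ∉ W := by
        intro w hw hwx hwW
        apply hx₁C
        left
        simp only [mem_iUnion]
        exact ⟨w, ⟨hwW, hw⟩, hwx, hx₁⟩
      refine ⟨q ∪ ({(x₁, true)} ∪ (fun w => (w, false)) ''
        {w | P w <:+ P x₁ ∧ w ≠ x₁ ∧ w ∉ Rt P L}), ?_, ⟨?_, ?_⟩, subset_union_left⟩
      · refine ⟨x₁, hx₁, y₁, hy₁, h1, hxy, Or.inl ⟨h0, Or.inr (Or.inl rfl), ?_⟩⟩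
        intro w hw1 hw2 hw3
        exact Or.inr (Or.inr ⟨w, ⟨hw1, hw2, hw3⟩, rfl⟩)
      · refine hq.1.union ((Set.finite_singleton _).union (Set.Finite.image _ ?_))
        exact (finite_Rt P hP1 (P x₁)).subset fun w hw => hw.1
      · rintro z (hz | rfl | ⟨w, ⟨hw1, hw2, hw3⟩, rfl⟩) z' (hz' | rfl | ⟨w', ⟨hw1', hw2', hw3'⟩, rfl⟩)
          hzz
        · exact hq.2 z hz z' hz' hzz
        · exact absurd ⟨z, hz, hzz⟩ (hWx x₁ hx₁R (List.suffix_refl _))
        · exact absurd ⟨z, hz, hzz⟩ (hWx w' hw3' hw1')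
        · exact absurd ⟨z', hz', hzz.symm⟩ (hWx x₁ hx₁R (List.suffix_refl _))
        · rfl
        · exact absurd hzz.symm hw2'
        · exact absurd ⟨z', hz', hzz.symm⟩ (hWx w hw3 hw1)
        · exact absurd hzz hw2
        · rfl
    · -- an interval
      set Tt := S' ∩ Ico x₁ y₁ with hT
      have hstopT := hSTs Tt f' h2.ge
      have hWR : ∀ w ∈ Rt P (ST Tt f'), w ∉ Rt P L → w ∉ W := by
        intro w hw hwR hwW
        have h4 : ω ^ f' ≤ otp (C ∩ Ico x₁ y₁ : Set X) := by
          refine hstopT.1.trans (otp_set_mono ?_)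
          rintro v ⟨⟨hv1, hv2⟩, hv3⟩
          refine ⟨Or.inl ?_, hv2⟩
          simp only [mem_iUnion]
          exact ⟨w, ⟨hwW, hwR⟩, List.IsSuffix.trans hw hv3, hv1⟩
        exact absurd h3 (not_lt.2 h4)
      refine ⟨q ∪ (fun w => (w, false)) '' {w | w ∈ Rt P (ST Tt f') ∧ w ∉ Rt P L}, ?_, ⟨?_, ?_⟩,
        subset_union_left⟩
      · refine ⟨x₁, hx₁, y₁, hy₁, h1, hxy, Or.inr ⟨h0, h2, ?_⟩⟩
        intro w hw1 hw2
        exact Or.inr ⟨w, ⟨hw1, hw2⟩, rfl⟩
      · refine hq.1.union (Set.Finite.image _ ?_)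
        exact (finite_Rt P hP1 (ST Tt f')).subset fun w hw => hw.1
      · rintro z (hz | ⟨w, ⟨hw1, hw2⟩, rfl⟩) z' (hz' | ⟨w', ⟨hw1', hw2'⟩, rfl⟩) hzz
        · exact hq.2 z hz z' hz' hzz
        · exact absurd ⟨z, hz, hzz⟩ (hWR w' hw1' hw2')
        · exact absurd ⟨z', hz', hzz.symm⟩ (hWR w hw1 hw2)
        · rfl
  -- the generic function
  set cd : X → Ordinal.{u} := fun c => typein (α := X) (· < ·) c with hcd
  set I := (X × Option X × List X) × X × X × X with hI
  have hIA : #I ≤ #A := by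
    have hc : ∀ c : Cardinal.{u}, c ≤ #A → ℵ₀ ≤ #A → c * #A ≤ #A := fun c hc1 hc2 =>
      (mul_le_mul' hc1 le_rfl).trans (mul_eq_self hc2).le
    have hA := aleph0_le_mk A
    have hO : #(Option X) ≤ #A := by
      rw [mk_option]
      exact add_le_of_le hA hXA ((one_lt_aleph0.trans_le hA).le)
    have hL : #(List X) ≤ #A := (mk_list_le_max X).trans (max_le hA hXA)
    simp only [hI, mk_prod, Cardinal.lift_id]
    refine (mul_le_mul' (mul_le_mul' hXA (mul_le_mul' hO hL))
      (mul_le_mul' hXA (mul_le_mul' hXA hXA))).trans ?_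
    simp only [mul_eq_self hA, le_refl]
  set D : I → Set (Set (X × Bool)) := fun i =>
    {p | ∀ f, f ≠ 0 → otp (Blk P i.1.1 i.1.2.1 i.1.2.2) = ω ^ f → cd i.2.1 < f →
      i.2.2.1 ∈ Blk P i.1.1 i.1.2.1 i.1.2.2 ∩ cone P (ST (Blk P i.1.1 i.1.2.1 i.1.2.2) f) →
      p ∈ Gd (Blk P i.1.1 i.1.2.1 i.1.2.2) f (cd i.2.1) i.2.2.1} with hD
  have hDd : ∀ i q, IsCond q → ∃ p ∈ D i, IsCond p ∧ q ⊆ p := by
    intro i q hq
    by_cases hf : ∃ f, f ≠ 0 ∧ otp (Blk P i.1.1 i.1.2.1 i.1.2.2) = ω ^ f ∧ cd i.2.1 < f ∧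
      i.2.2.1 ∈ Blk P i.1.1 i.1.2.1 i.1.2.2 ∩ cone P (ST (Blk P i.1.1 i.1.2.1 i.1.2.2) f)
    · obtain ⟨f, h1, h2, h3, h4⟩ := hf
      obtain ⟨p, hp, hpc, hqp⟩ := hdense _ f (cd i.2.1) i.2.2.1 h2 h1 h3 h4 q hq
      refine ⟨p, fun f' h1' h2' _ _ => ?_, hpc, hqp⟩
      have h5 : f' = f := (opow_right_inj one_lt_omega0).1 (h2'.symm.trans h2)
      rw [h5]
      exact hp
    · exact ⟨q, fun f h1 h2 h3 h4 => absurd ⟨f, h1, h2, h3, h4⟩ hf, hq, subset_rfl⟩
  -- the root of the whole set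
  have huniv : Blk P m0 none [] = Set.univ := by
    rw [eq_univ_iff_forall]
    intro v
    refine ⟨⟨hm0 v, fun z hz => ?_⟩, List.nil_suffix⟩
    simp at hz
  have hunivo : otp (Blk P m0 none []) = ω ^ e := by
    rw [huniv, ← hX]
    exact otp_congr OrderIso.Set.univ
  obtain ⟨g, hg0, hg⟩ := GenericSet.exists_common_below h hXA hIA D hDd
    (r := (fun w => (w, false)) '' Rt P (ST (Blk P m0 none []) e))
    ⟨(finite_Rt P hP1 _).image _, by
      rintro _ ⟨w, -, rfl⟩ _ ⟨w', -, rfl⟩ _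
      rfl⟩
  set Y : Set X := {v | g v = true ∧ ∀ w, P w <:+ P v → w ≠ v → g w = false} with hY
  -- the claim for blocks
  have key : ∀ f : Ordinal.{u}, f ≠ 0 → ∀ x y L, otp (Blk P x y L) = ω ^ f →
      (∀ w ∈ Rt P (ST (Blk P x y L) f), g w = false) →
      ω ^ f ≤ otp (Y ∩ (Blk P x y L ∩ cone P (ST (Blk P x y L) f)) : Set X) := by
    intro f
    induction f using WellFoundedLT.induction with
    | _ f ih =>
      intro hf x y L hS hR
      set S := Blk P x y L with hSd
      have hstop := hSTs S f hS.ge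
      have hne : (S ∩ cone P (ST S f)).Nonempty := by
        by_contra hcon
        rw [not_nonempty_iff_eq_empty] at hcon
        have h1 := hstop.1
        rw [otp_eq_zero hcon] at h1
        exact absurd h1 (not_le.2 (opow_pos _ omega0_pos))
      refine opow_le_otp_of_tails _ Y hf hne fun f' hf' x₀ hx₀ => ?_
      -- the code of `f'`
      have hfX : f' < otp X := by
        have h1 : f ≤ otp X := by
          have h2 : ω ^ f ≤ otp X := hS.ge.trans (otp_set_le _)
          exact (right_le_opow f one_lt_omega0).trans h2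
        exact hf'.trans_le h1
      obtain ⟨c, hc⟩ := typein_surj (α := X) (· < ·) hfX
      obtain ⟨p, hp, -, hpg⟩ := hg ((x, y, L), c, x₀, x₀)
      have hp' := hp f hf hS (by show cd c < f; rw [hcd]; exact hc.trans_lt hf') hx₀
      have hcd' : cd c = f' := hc
      rw [show (((x, y, L), c, x₀, x₀) : I).2.1 = c from rfl, hcd'] at hp'
      obtain ⟨x₁, hx₁, y₁, hy₁, h1, hxy, h2⟩ := hp'
      refine ⟨x₁, y₁, hy₁, h1, ?_⟩
      rcases h2 with ⟨h0, h3, h4⟩ | ⟨h0, h3, h4⟩
      · rw [h0, opow_zero, one_le_iff_ne_zero]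
        refine (type_ne_zero_iff_nonempty (r := (· < ·))).2 ⟨⟨x₁, ⟨⟨?_, ?_⟩, hx₁⟩, le_rfl, hxy⟩⟩
        · exact hpg _ h3
        · intro w hw1 hw2
          by_cases hw : w ∈ Rt P (ST S f)
          · exact hR w hw
          · exact hpg _ (h4 w hw1 hw2 hw)
      · have hne' : (Blk P x y L ∩ cone P (ST S f) ∩ Ico x₁ y₁).Nonempty := ⟨x₁, hx₁, le_rfl, hxy⟩
        obtain ⟨L'', hL''⟩ := blk_inter_Ico P hne' hx₁.1 hy₁.1
        have h5 := ih f' hf' h0 x₁ (some y₁) L'' (by rw [← hL'']; exact h3) (by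
          intro w hw
          rw [← hL''] at hw
          by_cases hw' : w ∈ Rt P (ST S f)
          · exact hR w hw'
          · exact hpg _ (h4 w hw hw'))
        refine h5.trans (otp_set_mono ?_)
        rw [← hL'']
        rintro v ⟨hv1, ⟨hv2, hv3⟩, -⟩
        exact ⟨⟨hv1, hv2⟩, hv3⟩
  rcases eq_or_ne e 0 with he | he
  · -- one point
    refine ⟨Set.univ, ?_, ?_⟩
    · rw [← hX]
      exact otp_congr OrderIso.Set.univ
    · intro x _ y _ hadj
      have h1 : #X = 1 := by
        have := congrArg Ordinal.card hX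
        rwa [card_type, he, opow_zero, card_one] at this
      have h2 : x = y := by
        have h3 : Subsingleton X := Cardinal.le_one_iff_subsingleton.1 h1.le
        exact Subsingleton.elim _ _
      rw [h2] at hadj
      exact G.loopless.irrefl _ hadj
  · refine ⟨Y, le_antisymm ((otp_set_le _).trans hX.le) ?_, ?_⟩
    · refine (key e he m0 none [] hunivo (fun w hw => ?_)).trans (otp_set_mono inter_subset_left)
      exact hg0 (w, false) ⟨w, hw, rfl⟩
    · intro x hx y hy hadj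
      have hne : x ≠ y := fun h => G.loopless.irrefl y (by rw [h] at hadj; exact hadj)
      rcases hP3 _ _ hadj with h1 | h1
      · have h2 := hy.2 x h1 hne
        rw [hx.1] at h2
        exact absurd h2 (by simp)
      · have h2 := hx.2 y h1 hne.symm
        rw [hy.1] at h2
        exact absurd h2 (by simp)

/-- The relation at the ordinals of cardinality at most `#A`. -/
theorem pathRel_of_generic {A : Type u} [Infinite A] (h : GenericSet A) {α : Ordinal.{u}}
    (hα : α.card ≤ #A) (hlim : ω ∣ α) : PathRel α := by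
  refine pathRel_of_forall_CNF α hlim fun p hp => pathRel_opow_of_generic h ?_
  refine le_trans (Ordinal.card_le_card ?_) hα
  have h1 : α ≠ 0 := by
    rintro rfl
    simp at hp
  exact (opow_le_opow_right omega0_pos (CNF.fst_le_log hp)).trans (opow_log_le_self ω h1)

end IPath
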