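import Pool.Agent.Forc.Defs

/-!
# Tail-free sets and generic functions on a set

The two notions for types and, evaluated in a structure `(N, ∈)`, for the elements of `N`.
-/

universe u

namespace Pool.Agent.W820.All

/-- The type `A` is tail-free: if a countable set `F s` is attached to every finite subset `s` of
`A`, then there is a sequence `y` in `A` such that `y i` is never in `F {y (i + 1), …, y n}`. -/
def TailFreeSet (A : Type u) : Prop :=
  ∀ F : Set A → Set A, (∀ s, s.Finite → (F s).Countable) →
    ∃ y : ℕ → A, ∀ i n, y i ∉ F (y '' Set.Ioc i n)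

/-- `p` is a finite partial function from `A` to `{0, 1}`, as a set of pairs. -/
def IsCond {A : Type u} (p : Set (A × Bool)) : Prop :=
  p.Finite ∧ ∀ z ∈ p, ∀ w ∈ p, z.1 = w.1 → z.2 = w.2

/-- Martin's axiom for the finite partial functions from `A` to `{0, 1}` and `|A|` dense sets: if
`D a` is a dense set of finite partial functions for every `a` in `A`, then there is `g : A → {0, 1}`
which extends an element of `D a` for every `a`. -/
def GenericSet (A : Type u) : Prop :=
  ∀ D : A → Set (Set (A × Bool)), (∀ a q, IsCond q → ∃ p ∈ D a, IsCond p ∧ q ⊆ p) →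
    ∃ g : A → Bool, ∀ a, ∃ p ∈ D a, IsCond p ∧ ∀ z ∈ p, g z.1 = z.2

end Pool.Agent.W820.All

namespace Pool.Agent.W820.AllM

open Pool.Agent.SigB Pool.Agent.Forc

variable {N : Type u} [Membership N N]

/-- `x` is a finite subset of `a`. -/
def IsFinSub (x a : N) : Prop := IsSub x a ∧ IsFinite x

/-- `x = {y_k : i < k ≤ n}` for the function `y`. -/
def IsPiece (x y i n : N) : Prop := ∀ z, z ∈ x ↔ ∃ k, i ∈ k ∧ (k ∈ n ∨ k = n) ∧ Val y k z

/-- The set `a` is tail-free. Here `F` is a set of pairs, and `F(x) = {z : (x, z) ∈ F}`: if `F(x)` is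
countable for every finite subset `x` of `a`, then there is a function `y` from `ω` to `a` with
`y i ∉ F({y (i + 1), …, y n})` for all `i, n ∈ ω`. -/
def IsTailFree (a : N) : Prop :=
  ∀ F : N, (∀ x, IsFinSub x a → ∃ c : N, IsCountable c ∧ ∀ z, Val F x z → z ∈ c) →
    ∃ o y : N, IsOmega o ∧ IsMap y o a ∧
      ∀ i n x z, i ∈ o → n ∈ o → IsPiece x y i n → Val y i z → ¬ Val F x z

/-- `p` is a finite partial function from `a` to `t`, as a set of pairs. -/
def IsCond (p a t : N) : Prop :=
  IsFinite p ∧ (∀ z, z ∈ p → ∃ x v, x ∈ a ∧ v ∈ t ∧ IsOrdPair z x v) ∧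
    ∀ x v v', Val p x v → Val p x v' → v = v'

/-- Martin's axiom for the finite partial functions from `a` to `t = {0, 1}` and `|a|` dense sets.
Here `D` is a set of pairs, and `D(i) = {p : (i, p) ∈ D}`: if `D(i)` is dense in the finite partial
functions for every `i ∈ a`, then there is a function `g` from `a` to `t` which extends an element
of `D(i)` for every `i ∈ a`. -/
def IsGenericSet (a : N) : Prop :=
  ∀ t D : N, IsTwo t → (∀ i q, i ∈ a → IsCond q a t → ∃ p, IsCond p a t ∧ IsSub q p ∧ Val D i p) →
    ∃ g, IsMap g a t ∧ ∀ i, i ∈ a → ∃ p, IsCond p a t ∧ IsSub p g ∧ Val D i p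

end Pool.Agent.W820.AllM
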