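import Pool.Agent.Work.MP_820435_lc.All.Defs
import Mathlib

/-!
# Generic functions on smaller sets
-/

open Cardinal Set
open Pool.Agent.W820.All

universe u

namespace IPath

theorem isCond_empty {A : Type u} : IsCond (∅ : Set (A × Bool)) :=
  ⟨Set.finite_empty, fun z hz => absurd hz (Set.notMem_empty z)⟩

/-- The axiom for `A` implies the axiom for smaller sets. -/
theorem GenericSet.exists_common {A : Type u} (h : GenericSet A) {B I : Type u}
    (hB : #B ≤ #A) (hI : #I ≤ #A) (D : I → Set (Set (B × Bool)))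
    (hD : ∀ i q, IsCond q → ∃ p ∈ D i, IsCond p ∧ q ⊆ p) :
    ∃ g : B → Bool, ∀ i, ∃ p ∈ D i, IsCond p ∧ ∀ z ∈ p, g z.1 = z.2 := by
  classical
  obtain ⟨e⟩ := hB
  obtain ⟨j⟩ := hI
  -- conditions on `A` and on `B`
  set up : Set (B × Bool) → Set (A × Bool) := fun p => (fun z => (e z.1, z.2)) '' p with hup
  set dn : Set (A × Bool) → Set (B × Bool) := fun q => {z | (e z.1, z.2) ∈ q} with hdn
  have hinj : Function.Injective (fun z : B × Bool => (e z.1, z.2)) := by
    intro z w h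
    simp only [Prod.mk.injEq] at h
    exact Prod.ext (e.injective h.1) h.2
  have hdnc : ∀ q, IsCond q → IsCond (dn q) := by
    intro q hq
    refine ⟨hq.1.preimage hinj.injOn, fun z hz w hw h => ?_⟩
    exact hq.2 _ hz _ hw (congrArg e h)
  have hcup : ∀ q p, IsCond q → IsCond p → dn q ⊆ p → IsCond (q ∪ up p) := by
    intro q p hq hp hqp
    refine ⟨hq.1.union (hp.1.image _), ?_⟩
    rintro z (hz | ⟨z, hz, rfl⟩) w (hw | ⟨w, hw, rfl⟩) h
    · exact hq.2 z hz w hw h
    · have h1 : (w.1, z.2) ∈ dn q := by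
        show (e w.1, z.2) ∈ q
        rw [show (e w.1, z.2) = z from Prod.ext h.symm rfl]
        exact hz
      exact hp.2 _ (hqp h1) _ hw rfl
    · have h1 : (z.1, w.2) ∈ dn q := by
        show (e z.1, w.2) ∈ q
        rw [show (e z.1, w.2) = w from Prod.ext h rfl]
        exact hw
      exact hp.2 _ hz _ (hqp h1) rfl
    · exact hp.2 _ hz _ hw (e.injective h)
  obtain ⟨g, hg⟩ := h (fun a => {q | ∀ i, j i = a → ∃ p ∈ D i, IsCond p ∧ up p ⊆ q}) (by
    intro a q hq
    by_cases ha : ∃ i, j i = a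
    · obtain ⟨i, rfl⟩ := ha
      obtain ⟨p, hp, hpc, hpq⟩ := hD i (dn q) (hdnc q hq)
      refine ⟨q ∪ up p, fun i' hi' => ?_, hcup q p hq hpc hpq, subset_union_left⟩
      obtain rfl := j.injective hi'
      exact ⟨p, hp, hpc, subset_union_right⟩
    · exact ⟨q, fun i hi => absurd ⟨i, hi⟩ ha, hq, subset_rfl⟩)
  refine ⟨fun b => g (e b), fun i => ?_⟩
  obtain ⟨q, hq, -, hgq⟩ := hg (j i)
  obtain ⟨p, hp, hpc, hpq⟩ := hq i rfl
  refine ⟨p, hp, hpc, fun z hz => ?_⟩
  exact hgq _ (hpq ⟨z, hz, rfl⟩)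

/-- The same with a given condition. -/
theorem GenericSet.exists_common_below {A : Type u} (h : GenericSet A) {B I : Type u}
    (hB : #B ≤ #A) (hI : #I ≤ #A) (D : I → Set (Set (B × Bool)))
    (hD : ∀ i q, IsCond q → ∃ p ∈ D i, IsCond p ∧ q ⊆ p) {r : Set (B × Bool)} (hr : IsCond r) :
    ∃ g : B → Bool, (∀ z ∈ r, g z.1 = z.2) ∧
      ∀ i, ∃ p ∈ D i, IsCond p ∧ ∀ z ∈ p, g z.1 = z.2 := by
  classical
  set off : Set (B × Bool) → Set (B × Bool) := fun p => {z ∈ p | ∀ w ∈ r, w.1 ≠ z.1} with hoff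
  have hcond : ∀ p, IsCond p → IsCond (r ∪ off p) := by
    intro p hp
    refine ⟨hr.1.union (hp.1.subset fun z hz => hz.1), ?_⟩
    rintro z (hz | hz) w (hw | hw) hzw
    · exact hr.2 z hz w hw hzw
    · exact absurd hzw (hw.2 z hz)
    · exact absurd hzw.symm (hz.2 w hw)
    · exact hp.2 z hz.1 w hw.1 hzw
  obtain ⟨g, hg⟩ := GenericSet.exists_common h hB hI (fun i => {p | r ∪ off p ∈ D i}) (by
    intro i q hq
    obtain ⟨p, hp, hpc, hqp⟩ := hD i _ (hcond q hq)
    have h1 : r ⊆ p := subset_union_left.trans hqp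
    refine ⟨q ∪ off p, ?_, ⟨hq.1.union (hpc.1.subset fun z hz => hz.1), ?_⟩, subset_union_left⟩
    · have h2 : r ∪ off (q ∪ off p) = p := by
        apply subset_antisymm
        · rintro z (hz | ⟨hz | hz, hz'⟩)
          · exact h1 hz
          · exact hqp (Or.inr ⟨hz, hz'⟩)
          · exact hz.1
        · intro z hz
          by_cases hzr : ∃ w ∈ r, w.1 = z.1
          · obtain ⟨w, hw, hwz⟩ := hzr
            have h3 := hpc.2 w (h1 hw) z hz hwz
            rw [show z = w from Prod.ext hwz.symm h3.symm]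
            exact Or.inl hw
          · push Not at hzr
            exact Or.inr ⟨Or.inr ⟨hz, hzr⟩, hzr⟩
      show r ∪ off (q ∪ off p) ∈ D i
      rw [h2]
      exact hp
    · rintro z (hz | hz) w (hw | hw) hzw
      · exact hq.2 z hz w hw hzw
      · exact hpc.2 z (hqp (Or.inr ⟨hz, by rw [hzw]; exact hw.2⟩)) w hw.1 hzw
      · exact hpc.2 z hz.1 w (hqp (Or.inr ⟨hw, by rw [← hzw]; exact hz.2⟩)) hzw
      · exact hpc.2 z hz.1 w hw.1 hzw)
  refine ⟨fun b => if hb : ∃ w ∈ r, w.1 = b then hb.choose.2 else g b, ?_, ?_⟩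
  · intro z hz
    have hb : ∃ w ∈ r, w.1 = z.1 := ⟨z, hz, rfl⟩
    beta_reduce
    rw [dif_pos hb]
    exact hr.2 _ hb.choose_spec.1 z hz hb.choose_spec.2
  · intro i
    obtain ⟨p, hp, hpc, hpg⟩ := hg i
    refine ⟨r ∪ off p, hp, hcond p hpc, ?_⟩
    rintro z (hz | hz)
    · have hb : ∃ w ∈ r, w.1 = z.1 := ⟨z, hz, rfl⟩
      beta_reduce
      rw [dif_pos hb]
      exact hr.2 _ hb.choose_spec.1 z hz hb.choose_spec.2
    · beta_reduce
      rw [dif_neg (fun hb : ∃ w ∈ r, w.1 = z.1 => hz.2 _ hb.choose_spec.1 hb.choose_spec.2)]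
      exact hpg z hz.1

end IPath
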