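import Pool.Agent.FTwo.Ext
import Pool.Agent.Forc.CohenBr
import Pool.Agent.Work.MP_820435_lc.All.Defs

/-!
# Finite subsets of copies, and translations
-/

universe u

set_option linter.unusedSectionVars false

namespace Pool.Agent.W820.AllM

open Pool.Agent.SigB Pool.Agent.Forc Pool.Agent.Frc Pool.Agent.FTwo

section model

variable {M : Type u} [Membership M M] [IsZFC M]

/-- The set of the finite subsets of `x`. -/
noncomputable def fsb (x : M) : M := sp (pw x) fun p => ∃ n, n ∈ (SigB.om : M) ∧ Le p n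

theorem mem_fsb {x p : M} : p ∈ fsb x ↔ Sb p x ∧ ∃ n, n ∈ (SigB.om : M) ∧ Le p n := by
  have h1 : p ∈ fsb x ↔ p ∈ pw x ∧ ∃ n, n ∈ (SigB.om : M) ∧ Le p n :=
    mem_sp (by simp (maxDischargeDepth := 50))
  rw [h1, mem_pw]

theorem fsb.dt : DT (fun w : Fin 1 → M => fsb (w 0)) := by
  unfold fsb; simp (maxDischargeDepth := 50)

@[simp] theorem dt_fsb {n : ℕ} {s : (Fin n → M) → M} (hs : DT s) : DT (fun v => fsb (s v)) :=
  dt1 fsb.dt hs

theorem isFinSub_iff {x a : M} : IsFinSub x a ↔ x ∈ fsb a := by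
  unfold IsFinSub
  rw [isFinite_iff, mem_fsb]
  rfl

theorem em_mem_fsb (x : M) : (SigB.em : M) ∈ fsb x :=
  mem_fsb.2 ⟨fun z hz => absurd hz (not_mem_em z), SigB.em, em_mem_om, Le.refl _⟩

theorem insert_mem_fsb {x s t : M} (hs : s ∈ fsb x) (ht : t ∈ x) : un s (pr t t) ∈ fsb x := by
  obtain ⟨h1, n, hn, h2⟩ := mem_fsb.1 hs
  refine mem_fsb.2 ⟨fun z hz => ?_, sc n, sc_mem_om hn, h2.insert t⟩
  rcases mem_un.1 hz with h | h
  · exact h1 z h
  · rw [mem_pr, or_self] at h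
    rwa [h]

/-- The set of the values `y k` for `i < k ≤ n`. -/
noncomputable def pc (y i n : M) : M := im (sp (sc n) fun k => i ∈ k) fun k => ap y k

theorem mem_pc {y i n z : M} : z ∈ pc y i n ↔ ∃ k, (k ∈ sc n ∧ i ∈ k) ∧ z = ap y k := by
  unfold pc
  rw [mem_im (by simp (maxDischargeDepth := 50))]
  refine exists_congr fun k => and_congr_left fun _ => ?_
  exact mem_sp (by simp (maxDischargeDepth := 50))

theorem pc.dt : DT (fun w : Fin 3 → M => pc (w 0) (w 1) (w 2)) := by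
  unfold pc; simp (maxDischargeDepth := 50)

@[simp] theorem dt_pc {n : ℕ} {s t r : (Fin n → M) → M} (hs : DT s) (ht : DT t) (hr : DT r) :
    DT (fun v => pc (s v) (t v) (r v)) := dt3 pc.dt hs ht hr

theorem pc_mem_fsb {y a i n : M} (hy : y ∈ fs (SigB.om : M) a) (hn : n ∈ (SigB.om : M)) :
    pc y i n ∈ fsb a := by
  have hsc := sc_mem_om hn
  refine mem_fsb.2 ⟨fun z hz => ?_, sc n, hsc, ?_⟩
  · obtain ⟨k, ⟨hk, -⟩, rfl⟩ := mem_pc.1 hz
    exact (mem_fs.1 hy).2 k (om_ord.trans hk hsc)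
  · refine Le.image (ord_of_mem_om hsc) (Le.refl (sc n)) (F := fun k => ap y k)
      (by simp (maxDischargeDepth := 50)) fun z hz => ?_
    obtain ⟨k, ⟨hk, -⟩, rfl⟩ := mem_pc.1 hz
    exact ⟨k, hk, rfl⟩

theorem isPiece_iff {x y a i n : M} (hy : y ∈ fs (SigB.om : M) a) (hn : n ∈ (SigB.om : M)) :
    IsPiece x y i n ↔ x = pc y i n := by
  have h1 : ∀ z, (∃ k, i ∈ k ∧ (k ∈ n ∨ k = n) ∧ Val y k z) ↔ z ∈ pc y i n := by
    intro z
    rw [mem_pc]
    refine exists_congr fun k => ?_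
    rw [val_map (isMap_iff.2 hy), mem_sc]
    constructor
    · rintro ⟨h1, h2, -, h3⟩
      exact ⟨⟨h2, h1⟩, h3.symm⟩
    · rintro ⟨⟨h2, h1⟩, h3⟩
      exact ⟨h1, h2, om_ord.trans (mem_sc.2 h2) (sc_mem_om hn), h3.symm⟩
  unfold IsPiece
  simp only [h1]
  exact ⟨fun h => ext' h, fun h z => by rw [h]⟩

/-- Tail-free sets. -/
theorem isTailFree_iff {a : M} : IsTailFree a ↔ ∀ F : M,
    (∀ x, x ∈ fsb a → ∃ c, Le c (SigB.om : M) ∧ ∀ z, op x z ∈ F → z ∈ c) →
      ∃ y, y ∈ fs (SigB.om : M) a ∧ ∀ i n, i ∈ (SigB.om : M) → n ∈ (SigB.om : M) →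
        op (pc y i n) (ap y i) ∉ F := by
  unfold IsTailFree
  refine forall_congr' fun F => imp_congr ?_ ?_
  · refine forall_congr' fun x => ?_
    rw [isFinSub_iff]
    refine imp_congr_right fun _ => exists_congr fun c => ?_
    rw [isCountable_iff]
    refine and_congr_right fun _ => forall_congr' fun z => ?_
    rw [val_iff]
  · constructor
    · rintro ⟨o, y, ho, hy, h⟩
      rw [isOmega_iff] at ho
      subst ho
      refine ⟨y, isMap_iff.1 hy, fun i n hi hn hF => ?_⟩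
      exact h i n _ _ hi hn ((isPiece_iff (isMap_iff.1 hy) hn).2 rfl)
        ((val_map hy).2 ⟨hi, rfl⟩) (val_iff.2 hF)
    · rintro ⟨y, hy, h⟩
      refine ⟨SigB.om, y, isOmega_iff.2 rfl, isMap_iff.2 hy, fun i n x z hi hn hx hz hF => ?_⟩
      rw [isPiece_iff hy hn] at hx
      obtain ⟨-, h2⟩ := (val_map (isMap_iff.2 hy)).1 hz
      subst hx
      subst h2
      exact h i n hi hn (val_iff.1 hF)

theorem isTwo_iff {t : M} : IsTwo t ↔ t = two := by
  constructor
  · rintro ⟨z, e, hz, he, ht⟩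
    rw [isPair_iff] at ht
    have h1 : z = SigB.em := ext' fun w => ⟨fun h => absurd h (hz w), fun h => absurd h (not_mem_em w)⟩
    have h2 : e = Forc.one := ext' fun w => by
      rw [he, h1]
      unfold Forc.one
      rw [mem_sc]
      constructor
      · exact fun h => Or.inr h
      · rintro (h | h)
        · exact absurd h (not_mem_em w)
        · exact h
    subst ht
    subst h1
    subst h2
    exact ext' fun w => by rw [mem_pr, mem_two]
  · rintro rfl
    exact isTwo_two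

theorem isCond_iff {p a : M} : IsCond p a two ↔ p ∈ cnd a := by
  unfold IsCond
  rw [isFinite_iff, mem_cnd]
  constructor
  · rintro ⟨h1, h2, h3⟩
    refine ⟨fun z hz => ?_, fun x y z hy hz => h3 x y z (val_iff.2 hy) (val_iff.2 hz), h1⟩
    obtain ⟨x, v, hx, hv, h⟩ := h2 z hz
    rw [isOrdPair_iff] at h
    subst h
    exact op_mem_pd.2 ⟨hx, hv⟩
  · rintro ⟨h1, h2, h3⟩
    refine ⟨h3, fun z hz => ?_, fun x y z hy hz => h2 x y z (val_iff.1 hy) (val_iff.1 hz)⟩
    obtain ⟨x, hx, v, hv, rfl⟩ := mem_pd.1 (h1 z hz)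
    exact ⟨x, v, hx, hv, isOrdPair_iff.2 rfl⟩

/-- Generic sets. -/
theorem isGenericSet_iff {a : M} : IsGenericSet a ↔ ∀ D : M,
    (∀ i q, i ∈ a → q ∈ cnd a → ∃ p, p ∈ cnd a ∧ Sb q p ∧ op i p ∈ D) →
      ∃ g, g ∈ fs a (two : M) ∧ ∀ i, i ∈ a → ∃ p, p ∈ cnd a ∧ Sb p g ∧ op i p ∈ D := by
  unfold IsGenericSet
  constructor
  · intro h D hD
    obtain ⟨g, hg, h1⟩ := h two D (isTwo_iff.2 rfl) fun i q hi hq => by
      obtain ⟨p, h1, h2, h3⟩ := hD i q hi (isCond_iff.1 hq)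
      exact ⟨p, isCond_iff.2 h1, h2, val_iff.2 h3⟩
    refine ⟨g, isMap_iff.1 hg, fun i hi => ?_⟩
    obtain ⟨p, h2, h3, h4⟩ := h1 i hi
    exact ⟨p, isCond_iff.1 h2, h3, val_iff.1 h4⟩
  · intro h t D ht hD
    rw [isTwo_iff] at ht
    subst ht
    obtain ⟨g, hg, h1⟩ := h D fun i q hi hq => by
      obtain ⟨p, h1, h2, h3⟩ := hD i q hi (isCond_iff.2 hq)
      exact ⟨p, isCond_iff.1 h1, h2, val_iff.1 h3⟩
    refine ⟨g, isMap_iff.2 hg, fun i hi => ?_⟩
    obtain ⟨p, h2, h3, h4⟩ := h1 i hi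
    exact ⟨p, isCond_iff.2 h2, h3, val_iff.2 h4⟩

end model

section ext

variable {M : Type u} [Membership M M] [IsZFC M] {P le one : M} {G : M → Prop} {N : Type u}
  [Membership N N] {val : M → N} [IsZFC N]

/-- Finite subsets of copies are copies of finite subsets. -/
theorem fsb_cv (hE : Ext P le one G val) {X : M} {s : N} :
    s ∈ fsb (val (ck one X)) ↔ ∃ s₀, s₀ ∈ fsb X ∧ s = val (ck one s₀) := by
  constructor
  · intro hs
    obtain ⟨hs1, n, hn, hs2⟩ := mem_fsb.1 hs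
    have key : ∀ n, n ∈ (SigB.om : N) → ∀ s, Sb s (val (ck one X)) → Le s n →
        s ∈ val (ck one (fsb X)) := by
      refine om_ind (P := fun n => ∀ s, Sb s (val (ck one X)) → Le s n →
        s ∈ val (ck one (fsb X))) (by simp (maxDischargeDepth := 50)) ?_ ?_
      · rintro s - ⟨f, hf, -⟩
        have h1 : s = SigB.em := ext' fun z =>
          ⟨fun hz => absurd ((mem_fs.1 hf).2 z hz) (not_mem_em _),
            fun hz => absurd hz (not_mem_em z)⟩
        rw [h1, ← hE.cv_em, hE.cv_mem]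
        exact em_mem_fsb X
      · intro n hn ih s hs hle
        by_cases hne : ∃ t, t ∈ s
        · obtain ⟨t, ht⟩ := hne
          have h1 := ih (df s (pr t t)) (fun z hz => hs z (mem_df.1 hz).1) (le_remove hle ht)
          obtain ⟨s₀, hs₀, he⟩ := hE.mem_cv.1 h1
          obtain ⟨t₀, ht₀, rfl⟩ := hE.mem_cv.1 (hs t ht)
          have h2 : s = un (df s (pr (val (ck one t₀)) (val (ck one t₀))))
              (pr (val (ck one t₀)) (val (ck one t₀))) := by
            refine ext' fun z => ?_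
            rw [mem_un, mem_df, mem_pr, or_self]
            constructor
            · intro hz
              by_cases h : z = val (ck one t₀)
              · exact Or.inr h
              · exact Or.inl ⟨hz, h⟩
            · rintro (h | h)
              · exact h.1
              · rwa [h]
          rw [h2, he, ← hE.cv_pr, ← hE.cv_un, hE.cv_mem]
          exact insert_mem_fsb hs₀ ht₀
        · push Not at hne
          have h1 : s = SigB.em := ext' fun z =>
            ⟨fun hz => absurd hz (hne z), fun hz => absurd hz (not_mem_em z)⟩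
          rw [h1, ← hE.cv_em, hE.cv_mem]
          exact em_mem_fsb X
    exact hE.mem_cv.1 (key n hn s hs1 hs2)
  · rintro ⟨s₀, hs, rfl⟩
    obtain ⟨h1, n, hn, h2⟩ := mem_fsb.1 hs
    refine mem_fsb.2 ⟨hE.cv_sb.2 h1, val (ck one n), ?_, hE.cv_le h2⟩
    rw [← hE.cv_om]
    exact hE.cv_mem.2 hn

theorem cv_one (hE : Ext P le one G val) : val (ck one (Forc.one : M)) = (Forc.one : N) := by
  unfold Forc.one
  rw [hE.cv_sc, hE.cv_em]

theorem cv_two (hE : Ext P le one G val) : val (ck one (two : M)) = (two : N) := by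
  unfold two
  rw [hE.cv_sc, cv_one hE]

/-- Conditions in the extension. -/
theorem cnd_cv (hE : Ext P le one G val) {a : M} {q : N} :
    q ∈ cnd (val (ck one a)) ↔ ∃ q₀, q₀ ∈ cnd a ∧ q = val (ck one q₀) := by
  constructor
  · intro hq
    obtain ⟨h1, h2, h3⟩ := mem_cnd.1 hq
    rw [← cv_two hE, ← hE.cv_pd] at h1
    obtain ⟨q₀, hq₀, rfl⟩ := (fsb_cv hE).1 (mem_fsb.2 ⟨h1, h3⟩)
    obtain ⟨h4, h5⟩ := mem_fsb.1 hq₀
    refine ⟨q₀, mem_cnd.2 ⟨h4, fun x y z hy hz => ?_, h5⟩, rfl⟩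
    exact hE.cv_inj.1 (h2 _ _ _ (hE.cv_op_mem.2 hy) (hE.cv_op_mem.2 hz))
  · rintro ⟨q₀, hq, rfl⟩
    obtain ⟨h1, h2, h3⟩ := mem_cnd.1 hq
    obtain ⟨h4, h5⟩ := mem_fsb.1 ((fsb_cv hE).2 ⟨q₀, mem_fsb.2 ⟨h1, h3⟩, rfl⟩)
    rw [hE.cv_pd, cv_two hE] at h4
    refine mem_cnd.2 ⟨h4, fun x y z hy hz => ?_, h5⟩
    obtain ⟨x', y', rfl, rfl, hxy⟩ := hE.of_op_mem hy
    obtain ⟨x'', z', h6, rfl, hxz⟩ := hE.of_op_mem hz
    rw [hE.cv_inj] at h6
    subst h6
    rw [h2 _ _ _ hxy hxz]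

end ext

end Pool.Agent.W820.AllM
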