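import Pool.Agent.Work.MP_820435_lc.All.ModFin

/-!
# Tail-free sets in the extension
-/

universe u

set_option linter.unusedSectionVars false

namespace Pool.Agent.W820.AllM

open Pool.Agent.SigB Pool.Agent.Forc Pool.Agent.Frc Pool.Agent.FTwo

variable {M : Type u} [Membership M M] [IsZFC M] {k : M} {G : M → Prop} {N : Type u}
  [Membership N N] {val : M → N} [IsZFC N]

/-- A countable set in `M` for every set from a function of the extension with countable values. -/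
theorem exists_covering (hE : Ext (cnd k) (cle k) SigB.em G val) {A B : M} {F : N}
    (hB : ∃ b, b ∈ B)
    (hF : ∀ x, x ∈ val (ck SigB.em A) → ∃ c : N, Le c (SigB.om : N) ∧
      ∀ z, op x z ∈ F → z ∈ c) :
    ∃ F' : M, (∀ x, x ∈ A → ∃ c : M, Le c (SigB.om : M) ∧ ∀ z, op x z ∈ F' → z ∈ c) ∧
      ∀ x z, x ∈ A → z ∈ B → op (val (ck SigB.em x)) (val (ck SigB.em z)) ∈ F →
        op x z ∈ F' := by
  obtain ⟨b₀, hb₀⟩ := hB
  -- enumerations in the extension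
  obtain ⟨J, hJ, hJs⟩ := choice' (a := val (ck SigB.em A))
    (b := pw (pd (val (ck SigB.em B)) (SigB.om : N)))
    (P := fun x j => (∀ z, z ∈ val (ck SigB.em B) → op x z ∈ F → ap j z ∈ (SigB.om : N)) ∧
      ∀ z z', z ∈ val (ck SigB.em B) → z' ∈ val (ck SigB.em B) → op x z ∈ F → op x z' ∈ F →
        ap j z = ap j z' → z = z')
    (by simp (maxDischargeDepth := 50)) (by
      intro x hx
      obtain ⟨c, ⟨j, hj, hji⟩, hc⟩ := hF x hx
      obtain ⟨hj1, hj2⟩ := mem_fs.1 hj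
      have hd : DT (fun w : Fin 1 → N => ap j (w 0)) := by simp (maxDischargeDepth := 50)
      have hd2 : Dfn (fun w : Fin 1 → N => op x (w 0) ∈ F) := by
        simp (maxDischargeDepth := 50)
      have hm : ∀ z, z ∈ sp (val (ck SigB.em B)) (fun z => op x z ∈ F) ↔
          z ∈ val (ck SigB.em B) ∧ op x z ∈ F := fun z => mem_sp hd2
      refine ⟨lam (sp (val (ck SigB.em B)) fun z => op x z ∈ F) fun z => ap j z,
        mem_pw.2 fun u hu => ?_, fun z hz hzF => ?_, fun z z' hz hz' hzF hzF' he => ?_⟩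
      · obtain ⟨z, hz, rfl⟩ := (fn_lam hd).mem_iff.1 hu
        rw [ap_lam hd hz]
        exact op_mem_pd.2 ⟨((hm z).1 hz).1, hj2 z (hc z ((hm z).1 hz).2)⟩
      · rw [ap_lam hd ((hm z).2 ⟨hz, hzF⟩)]
        exact hj2 z (hc z hzF)
      · rw [ap_lam hd ((hm z).2 ⟨hz, hzF⟩), ap_lam hd ((hm z').2 ⟨hz', hzF'⟩)] at he
        exact hji z z' (hc z hzF) (hc z' hzF') he)
  -- the forcing relation
  obtain ⟨K, hK, hKP, hKm, hKd, hKt⟩ := hE.forcing3
    (R := fun x n z => z ∈ val (ck SigB.em B) ∧ op x z ∈ F ∧ ap (ap J x) z = n)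
    (by simp (maxDischargeDepth := 50))
  have hK' : ∀ {n : ℕ} {s t r q : (Fin n → M) → M}, DT s → DT t → DT r → DT q →
      Dfn fun v => K (s v) (t v) (r v) (q v) := fun hs ht hr hq => dfn4 hK hs ht hr hq
  let D : M → M := fun u => sp (cnd k) fun p => ∃ z, z ∈ B ∧
    K p (ck SigB.em (fst u)) (ck SigB.em (snd u)) (ck SigB.em z)
  have hD : DT (fun w : Fin 1 → M => D (w 0)) := by
    simp (maxDischargeDepth := 50) [D, hK']
  have hD' : ∀ {n : ℕ} {s : (Fin n → M) → M}, DT s → DT fun v => D (s v) := fun hs => dt1 hD hs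
  have hDm : ∀ u p, p ∈ D u ↔ p ∈ cnd k ∧ ∃ z, z ∈ B ∧
      K p (ck SigB.em (fst u)) (ck SigB.em (snd u)) (ck SigB.em z) := fun u p =>
    mem_sp (by simp (maxDischargeDepth := 50) [hK'])
  obtain ⟨E, hE1, hEs⟩ := choice' (a := pd A (SigB.om : M)) (b := pw (cnd k))
    (P := fun u E => Sb E (D u) ∧ Le E (SigB.om : M) ∧ ∀ q, q ∈ D u → ∃ p, p ∈ E ∧ ¬ Inc p q)
    (by simp (maxDischargeDepth := 50) [hD']) (by
      intro u hu
      have h1 : Sb (D u) (cnd k) := fun p hp => ((hDm u p).1 hp).1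
      obtain ⟨E, h2, h3, h4⟩ := exists_pred h1
      exact ⟨E, mem_pw.2 (h2.trans h1), h2, h3, h4⟩)
  obtain ⟨H, hH, hHs⟩ := choice' (a := pd (pd A (SigB.om : M)) (cnd k)) (b := B)
    (P := fun v z => ∀ u p, v = op u p → p ∈ D u →
      K p (ck SigB.em (fst u)) (ck SigB.em (snd u)) (ck SigB.em z))
    (by simp (maxDischargeDepth := 50) [hD', hK']) (by
      intro v hv
      obtain ⟨u, hu, p, hp, rfl⟩ := mem_pd.1 hv
      by_cases h : p ∈ D u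
      · obtain ⟨-, z, hz, h1⟩ := (hDm _ _).1 h
        refine ⟨z, hz, fun u' p' he _ => ?_⟩
        obtain ⟨rfl, rfl⟩ := op_inj.1 he
        exact h1
      · refine ⟨b₀, hb₀, fun u' p' he h' => ?_⟩
        obtain ⟨rfl, rfl⟩ := op_inj.1 he
        exact absurd h' h)
  have hI : ∀ u : M, DT (fun w : Fin 1 → M => ap H (op u (w 0))) := fun n => by
    simp (maxDischargeDepth := 50)
  have hJ' : ∀ x : M, DT (fun w : Fin 1 → M =>
      im (ap E (op x (w 0))) fun p => ap H (op (op x (w 0)) p)) := fun x => by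
    simp (maxDischargeDepth := 50)
  have hQ : Dfn (fun w : Fin 1 → M => ∃ x z, w 0 = op x z ∧
      ∃ n, n ∈ (SigB.om : M) ∧ z ∈ im (ap E (op x n)) fun p => ap H (op (op x n) p)) := by
    simp (maxDischargeDepth := 50)
  have hFm : ∀ x z, op x z ∈ sp (pd A B) (fun v => ∃ x z, v = op x z ∧
      ∃ n, n ∈ (SigB.om : M) ∧ z ∈ im (ap E (op x n)) fun p => ap H (op (op x n) p)) ↔
      (x ∈ A ∧ z ∈ B) ∧ ∃ n, n ∈ (SigB.om : M) ∧
        z ∈ im (ap E (op x n)) fun p => ap H (op (op x n) p) := by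
    intro x z
    rw [mem_sp hQ, op_mem_pd]
    refine and_congr_right fun _ => ⟨?_, fun h => ⟨x, z, rfl, h⟩⟩
    rintro ⟨x', z', he, h⟩
    obtain ⟨rfl, rfl⟩ := op_inj.1 he
    exact h
  refine ⟨sp (pd A B) (fun v => ∃ x z, v = op x z ∧
      ∃ n, n ∈ (SigB.om : M) ∧ z ∈ im (ap E (op x n)) fun p => ap H (op (op x n) p)),
    fun x hx => ?_, fun x z hx hz hxz => ?_⟩
  · refine ⟨sU (im (SigB.om : M) fun n => im (ap E (op x n)) fun p => ap H (op (op x n) p)),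
      ?_, fun z hz => ?_⟩
    · refine Le.union om_ord (Sb.refl _) (le_om_im (Le.refl _) (hJ' x)) fun y hy => ?_
      obtain ⟨n, hn, rfl⟩ := (mem_im (hJ' x)).1 hy
      exact le_om_im (hEs _ (op_mem_pd.2 ⟨hx, hn⟩)).2.1 (hI _)
    · obtain ⟨-, n, hn, h⟩ := (hFm x z).1 hz
      exact mem_sU.2 ⟨_, (mem_im (hJ' x)).2 ⟨n, hn, rfl⟩, h⟩
  · have hx' : val (ck SigB.em x) ∈ val (ck SigB.em A) := hE.cv_mem.2 hx
    have hz' : val (ck SigB.em z) ∈ val (ck SigB.em B) := hE.cv_mem.2 hz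
    obtain ⟨h1, h2⟩ := hJs _ hx'
    have h3 := h1 _ hz' hxz
    rw [← hE.cv_om] at h3
    obtain ⟨n, hn, he⟩ := hE.mem_cv.1 h3
    have hu : op x n ∈ pd A (SigB.om : M) := op_mem_pd.2 ⟨hx, hn⟩
    obtain ⟨p, hp, hKp⟩ := (hKt _ _ _).1 ⟨hz', hxz, he⟩
    have hpD : p ∈ D (op x n) := (hDm _ _).2 ⟨hE.gen.mem p hp, z, hz, by
      rw [fst_op, snd_op]; exact hKp⟩
    obtain ⟨hE2, -, hE3⟩ := hEs _ hu
    obtain ⟨q, hq, hqE⟩ := meet hE (A := ap E (op x n)) (D := D (op x n)) hE2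
      (fun p hp => ((hDm _ p).1 hp).1) (by
        intro q r hq hr
        obtain ⟨-, w, hw, h3⟩ := (hDm _ q).1 hq
        exact (hDm _ r).2 ⟨(op_mem_cle.1 hr).1.1, w, hw, hKm _ _ _ _ _ h3 hr⟩) hE3
      ⟨p, hp, hpD⟩
    have hqc := hE.gen.mem q hq
    have h4 := hHs _ (op_mem_pd.2 ⟨hu, hqc⟩) (op x n) q rfl (hE2 q hqE)
    rw [fst_op, snd_op] at h4
    obtain ⟨h5, h6, h7⟩ := (hKt _ _ _).2 ⟨q, hq, h4⟩
    have h8 := h2 _ _ hz' h5 hxz h6 (he.trans h7.symm)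
    rw [hE.cv_inj] at h8
    exact (hFm x z).2 ⟨⟨hx, hz⟩, n, hn, (mem_im (hI _)).2 ⟨q, hqE, h8⟩⟩

/-- A tail-free set of `M` is tail-free in the extension. -/
theorem isTailFree_cv (hE : Ext (cnd k) (cle k) SigB.em G val) {a : M} (ha : IsTailFree a) :
    IsTailFree (val (ck SigB.em a)) := by
  rw [isTailFree_iff] at ha ⊢
  intro F hF
  have hne : ∃ b, b ∈ a := by
    obtain ⟨y, hy, -⟩ := ha SigB.em fun x _ =>
      ⟨SigB.em, le_of_empty not_mem_em, fun z hz => absurd hz (not_mem_em _)⟩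
    exact ⟨_, (mem_fs.1 hy).2 _ em_mem_om⟩
  obtain ⟨F', h1, h2⟩ := exists_covering hE (A := fsb a) (B := a) (F := F) hne fun x hx => by
    obtain ⟨x₀, hx₀, rfl⟩ := hE.mem_cv.1 hx
    exact hF _ ((fsb_cv hE).2 ⟨x₀, hx₀, rfl⟩)
  obtain ⟨y, hy, h3⟩ := ha F' h1
  obtain ⟨hy1, hy2⟩ := mem_fs.1 hy
  have hy' := hE.fs_cv hy
  rw [hE.cv_om] at hy'
  refine ⟨val (ck SigB.em y), hy', fun i n hi hn hin => ?_⟩
  rw [← hE.cv_om] at hi hn
  obtain ⟨i, hi₀, rfl⟩ := hE.mem_cv.1 hi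
  obtain ⟨n, hn₀, rfl⟩ := hE.mem_cv.1 hn
  have h4 : pc (val (ck SigB.em y)) (val (ck SigB.em i)) (val (ck SigB.em n)) =
      val (ck SigB.em (pc y i n)) := by
    refine ext' fun z => ?_
    rw [mem_pc, hE.mem_cv, ← hE.cv_sc]
    have hsub : ∀ j, j ∈ sc n → j ∈ (SigB.om : M) := fun j hj =>
      om_ord.trans hj (sc_mem_om hn₀)
    constructor
    · rintro ⟨j, ⟨hj, hij⟩, rfl⟩
      obtain ⟨j, hj₀, rfl⟩ := hE.mem_cv.1 hj
      rw [hE.cv_mem] at hij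
      exact ⟨ap y j, mem_pc.2 ⟨j, ⟨hj₀, hij⟩, rfl⟩, hE.ap_cv hy1 (hsub j hj₀)⟩
    · rintro ⟨w, hw, rfl⟩
      obtain ⟨j, ⟨hj, hij⟩, rfl⟩ := mem_pc.1 hw
      exact ⟨val (ck SigB.em j), ⟨hE.cv_mem.2 hj, hE.cv_mem.2 hij⟩,
        (hE.ap_cv hy1 (hsub j hj)).symm⟩
  rw [h4, hE.ap_cv hy1 hi₀] at hin
  exact h3 i n hi₀ hn₀ (h2 _ _ (pc_mem_fsb hy hn₀) (hy2 i hi₀) hin)

end Pool.Agent.W820.AllM
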