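import Pool.Agent.Work.MP_820435_lc.All.Defs
import Pool.Agent.Work.MP_820435_lc.Cnf
import Pool.Agent.Work.MP_820435_lc.Graph
import Pool.Agent.Work.MP_820435_lc.PosReg2
import Pool.Agent.Work.MP_820435_lc.NegMul

/-!
# Task list of ALL (statements only; nothing imports this file)
Every proof goes into its own file `All/<name>.lean` which imports `All/Defs` and what it needs.
-/

open Ordinal Cardinal Set Order
open Pool.Agent.W820.All Pool.Agent.W820.AllM
open Pool.Agent.SigB (IsZFC)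

universe u

namespace IPath.Tasks

/- A1 `All/Gen`: transfer of the axiom to smaller index sets. -/
theorem GenericSet.exists_common {A : Type u} [Infinite A] (h : GenericSet A) {B I : Type u}
    (hB : #B ≤ #A) (hI : #I ≤ #A) (D : I → Set (Set (B × Bool)))
    (hD : ∀ i q, IsCond q → ∃ p ∈ D i, IsCond p ∧ q ⊆ p) :
    ∃ g : B → Bool, ∀ i, ∃ p ∈ D i, IsCond p ∧ ∀ z ∈ p, g z.1 = z.2 := by
  sorry

/- A2 `All/Interval`: an interval of type `ω ^ f'` in which `C` is small. -/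
theorem exists_interval {X : Type u} [LinearOrder X] [WellFoundedLT X] (S C : Set X)
    {f f' : Ordinal.{u}} (hf : f' < f) (hS : otp S = ω ^ f) (hC : C ⊆ S) (hC' : otp C < ω ^ f)
    (x₀ : X) (hx₀ : x₀ ∈ S) :
    ∃ x₁ ∈ S, ∃ y₁ ∈ S, x₀ ≤ x₁ ∧ otp (S ∩ Ico x₁ y₁ : Set X) = ω ^ f' ∧
      otp (C ∩ Ico x₁ y₁ : Set X) < ω ^ f' := by
  sorry

/- A3 `All/Interval`: the type of a set with rich tails. -/
theorem opow_le_otp_of_tails {X : Type u} [LinearOrder X] [WellFoundedLT X] (S Y : Set X)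
    {f : Ordinal.{u}} (hf : f ≠ 0) (hS : S.Nonempty)
    (h : ∀ f' < f, ∀ x₀ ∈ S, ∃ x₁, ∃ y₁ ∈ S, x₀ ≤ x₁ ∧ ω ^ f' ≤ otp (Y ∩ S ∩ Ico x₁ y₁ : Set X)) :
    ω ^ f ≤ otp (Y ∩ S : Set X) := by
  sorry

/- A4 `All/Core` (helper63): the relation from the axiom. -/
theorem pathRel_of_generic {A : Type u} [Infinite A] (h : GenericSet A) {α : Ordinal.{u}}
    (hα : α.card ≤ #A) (hlim : ω ∣ α) : PathRel α := by
  sorry

/- A5 `All/Final`: every limit ordinal (from A4, `pathRel_mul_add_iff_reg` with `κ = (#A)⁺`, and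
`TailFreeSet A → TailFreeC A`). -/
theorem pathRel_of_tailFree_generic {A : Type u} (hT : TailFreeSet A) (hG : GenericSet A)
    {α : Ordinal.{u}} (hlim : ω ∣ α) : PathRel α := by
  sorry

/- A6 `All/Model` (helper19): the model part. -/
theorem exists_model (M : Type u) [Membership M M] [IsZFC M] (a : M) (ha : IsTailFree a) :
    ∃ (N : Type u) (_ : Membership N N), IsZFC N ∧ ∃ b : N, IsTailFree b ∧ IsGenericSet b := by
  sorry

/- A7 `All/Nec`: necessity (from `not_pathRel_regular_mul`, `κ = μ⁺`). -/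
theorem exists_tailFree_of_all (h : ∀ α : Ordinal.{u}, ω ∣ α → PathRel α) :
    (∃ A : Type u, TailFreeSet A) ∨ ∀ μ : Cardinal.{u}, ℵ₀ ≤ μ → succ μ < 2 ^ μ := by
  sorry

end IPath.Tasks
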